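import Pool.Agent.Helper88.CG.Goals
import Pool.Agent.Helper88.GM.Main
import Pool.Agent.Helper88.RR.KI

/-! # The primes at the points of `P` are killed by the weight -/

set_option autoImplicit false

open Finset Filter Topology

open scoped Classical

namespace Pool.Agent.Helper88.CG

open Pool.Agent.Helper88.PP (pr Rg om Sf SS uu vv ee LA VV QQ cost)
open Pool.Agent.Helper88.RR (gg ab TB WB nz wb DB VM GB tail point om_nonneg)
open Pool.Agent.Helper88.GM (NI XI gB Sr In XI_pos)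

/-- `2^(-j)` against the number of points -/
theorem small (η cG : ℝ) (hη : 0 < η) (hG : 0 < cG) : ∃ E0 : ℕ, ∀ E : ℕ, E0 ≤ E →
    (E : ℝ) ^ 2 * (1 / 2 ^ (qE E / 2)) ≤ η / 2 ∧ (E : ℝ) ^ 2 * Real.exp (-(cG * E)) ≤ η / 2 := by
  have hN : Tendsto (fun E : ℕ => (E : ℝ)) atTop atTop := tendsto_natCast_atTop_atTop
  have e1 : Tendsto (fun E : ℕ => (E : ℝ) ^ 2 * Real.exp (-(cG * E))) atTop (𝓝 0) := by
    have h := Real.tendsto_pow_mul_exp_neg_atTop_nhds_zero 2
    have h2 : Tendsto (fun u : ℝ => (1 / cG ^ 2) * ((cG * u) ^ 2 * Real.exp (-(cG * u)))) atTop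
        (𝓝 ((1 / cG ^ 2) * 0)) := by
      refine Tendsto.const_mul _ ?_
      exact h.comp (Tendsto.const_mul_atTop hG tendsto_id)
    rw [mul_zero] at h2
    refine (h2.comp hN).congr fun E => ?_
    simp only [Function.comp]
    field_simp
  -- `k = log₂ E / 16`
  have e2 : Tendsto (fun k : ℕ => ((2 : ℝ) ^ (16 * k + 16)) ^ 2 * (1 / 2 ^ (2 ^ k / 2))) atTop
      (𝓝 0) := by
    have g1 : Tendsto (fun k : ℕ => (2 : ℝ) ^ 32 * ((((k : ℝ)) ^ 1 / (2 : ℝ) ^ k))) atTop
        (𝓝 ((2 : ℝ) ^ 32 * 0)) :=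
      (tendsto_pow_const_div_const_pow_of_one_lt 1 (by norm_num)).const_mul _
    rw [mul_zero] at g1
    have g2 : ∀ᶠ k : ℕ in atTop, 33 * k + 1 ≤ 2 ^ k / 2 := by
      have h3 : Tendsto (fun k : ℕ => ((k : ℝ)) ^ 1 / (2 : ℝ) ^ k) atTop (𝓝 0) :=
        tendsto_pow_const_div_const_pow_of_one_lt 1 (by norm_num)
      have h4 := h3.eventually (gt_mem_nhds (show (0 : ℝ) < 1 / 200 by norm_num))
      filter_upwards [h4, eventually_ge_atTop 10] with k hk hk10
      rw [pow_one, div_lt_div_iff₀ (by positivity) (by norm_num)] at hk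
      have h5 : k * 200 < 1 * 2 ^ k := by exact_mod_cast hk
      omega
    refine squeeze_zero' (Eventually.of_forall fun k => by positivity) ?_ g1
    filter_upwards [g2, eventually_ge_atTop 1] with k hk hk1
    have h6 : (2 : ℝ) ^ (33 * k) ≤ 2 ^ (2 ^ k / 2) :=
      pow_le_pow_right₀ (by norm_num) (by omega)
    have h7 : ((2 : ℝ) ^ (16 * k + 16)) ^ 2 = 2 ^ 32 * 2 ^ (32 * k) := by
      rw [← pow_mul, ← pow_add]
      congr 1
      ring
    have h8 : (2 : ℝ) ^ (33 * k) = 2 ^ (32 * k) * 2 ^ k := by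
      rw [← pow_add]
      congr 1
      ring
    have hk1' : (1 : ℝ) ≤ k := by exact_mod_cast hk1
    rw [h7, pow_one]
    have h9 : (1 : ℝ) / 2 ^ (2 ^ k / 2) ≤ 1 / 2 ^ (33 * k) :=
      one_div_le_one_div_of_le (by positivity) h6
    have h10 : (2 : ℝ) ^ 32 * 2 ^ (32 * k) * (1 / 2 ^ (33 * k)) = 2 ^ 32 * (1 / 2 ^ k) := by
      rw [h8]
      field_simp
    have h11 : (2 : ℝ) ^ 32 * (1 / 2 ^ k) ≤ 2 ^ 32 * ((k : ℝ) / 2 ^ k) := by
      apply mul_le_mul_of_nonneg_left _ (by positivity)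
      exact div_le_div_of_nonneg_right hk1' (by positivity)
    exact (mul_le_mul_of_nonneg_left h9 (by positivity)).trans (h10.le.trans h11)
  obtain ⟨E1, hE1⟩ := eventually_atTop.1 (e1.eventually (gt_mem_nhds (half_pos hη)))
  obtain ⟨k0, hk0⟩ := eventually_atTop.1 (e2.eventually (gt_mem_nhds (half_pos hη)))
  refine ⟨max E1 (2 ^ (16 * k0)), fun E hE => ⟨?_, (hE1 E (le_trans (le_max_left _ _) hE)).le⟩⟩
  have hE2 : 2 ^ (16 * k0) ≤ E := le_trans (le_max_right _ _) hE
  have hE0 : E ≠ 0 := by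
    have : 0 < 2 ^ (16 * k0) := by positivity
    omega
  have hL : 16 * k0 ≤ Nat.log 2 E := Nat.le_log_of_pow_le (by norm_num) hE2
  have hk : k0 ≤ Nat.log 2 E / 16 := by omega
  have hpow2 : E < 2 ^ (Nat.log 2 E + 1) := Nat.lt_pow_succ_log_self (by norm_num) E
  have h9 : (E : ℝ) ≤ 2 ^ (16 * (Nat.log 2 E / 16) + 16) := by
    have h10 : E ≤ 2 ^ (16 * (Nat.log 2 E / 16) + 16) :=
      hpow2.le.trans (Nat.pow_le_pow_right (by norm_num) (by omega))
    exact_mod_cast h10
  have h11 := (hk0 _ hk).le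
  refine le_trans ?_ h11
  have h12 : qE E = 2 ^ (Nat.log 2 E / 16) := rfl
  rw [h12]
  gcongr

theorem kq (h : StmtVP) : StmtKQ := by
  obtain ⟨c1, hc1, EV, hVP⟩ := h
  obtain ⟨cG, hcG, EG, hGT⟩ := Pool.Agent.Helper6.GM.gt Pool.Agent.Helper88.GM.tsMain
    Pool.Agent.Helper31.GM.gw
  obtain ⟨cS, hcS, ES, hS1⟩ := Pool.Agent.Helper32.GM.s1 Pool.Agent.Helper88.GM.tsMain
    Pool.Agent.Helper31.GM.gw
  set c : ℝ := min 1 (c1 / 100) with hc
  have hc0 : 0 < c := lt_min one_pos (by positivity)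
  have hcl : c ≤ c1 / 100 := min_le_right _ _
  have hcone : c ≤ 1 := min_le_left _ _
  clear_value c
  refine ⟨c, hc0, fun η hη => ?_⟩
  obtain ⟨E2, hE2⟩ := small η cG hη hcG
  refine ⟨max (max ES EG) (max (max EV E2) 300), ?_⟩
  intro E z x y hE hSr b hb P hP hPo
  have hEES : ES ≤ E := le_trans (le_trans (le_max_left _ _) (le_max_left _ _)) hE
  have hEEG : EG ≤ E := le_trans (le_trans (le_max_right _ _) (le_max_left _ _)) hE
  have hEEV : EV ≤ E := le_trans (le_trans (le_trans (le_max_left _ _) (le_max_left _ _))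
    (le_max_right _ _)) hE
  have hEE2 : E2 ≤ E := le_trans (le_trans (le_trans (le_max_right _ _) (le_max_left _ _))
    (le_max_right _ _)) hE
  have hE300 : 300 ≤ E := le_trans (le_trans (le_max_right _ _) (le_max_right _ _)) hE
  obtain ⟨s1, s2⟩ := hE2 E hEE2
  obtain ⟨v1, v2, v3, v4, v5, v6⟩ := hVP E hEEV
  set m := mE E with hm
  set q := qE E with hq
  have hq1 : 1 ≤ q := by rw [hq, qE]; exact Nat.one_le_two_pow
  have hqm : q * m ≤ E / 16 := by
    refine le_trans (Nat.mul_le_mul_right _ ?_) v2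
    nlinarith only [hq1]
  have hK : (E / 16 / m + 1) ^ 3 ≤ E := by
    refine le_trans ?_ v4
    have ha : ∀ a : ℕ, a + 1 ≤ 2 * (a + 2) := fun a => by omega
    calc (E / 16 / m + 1) ^ 3 ≤ (2 * (E / 16 / m + 2)) ^ 3 := Nat.pow_le_pow_left (ha _) 3
      _ ≤ (2 * (E / 16 / m + 2)) ^ 6 := Nat.pow_le_pow_right (Nat.succ_le_of_lt (by positivity)) (by norm_num)
  have hj : 2 * (q / 2 * (q * m)) ≤ E / 16 := by
    refine le_trans ?_ v2
    have h1 : 2 * (q / 2) ≤ q := Nat.mul_div_le q 2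
    calc 2 * (q / 2 * (q * m)) = 2 * (q / 2) * (q * m) := by ring
      _ ≤ q * (q * m) := Nat.mul_le_mul_right _ h1
      _ = q ^ 2 * m := by ring
  have hE0 : E ≠ 0 := by omega
  have hEr : (300 : ℝ) ≤ E := by exact_mod_cast hE300
  have hEpos : (0 : ℝ) < E := by linarith only [hEr]
  -- the size of `z`
  obtain ⟨hz1, hx1, hx2, hy1, hy2, hy3⟩ := hSr
  have hz2' : 2 ≤ z := by
    have h1 : (2 : ℝ) ≤ z := by
      have := Real.add_one_le_exp (E : ℝ)
      linarith only [hEr, hz1, this]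
    exact_mod_cast h1
  obtain ⟨hV1, hVlog⟩ := v6 z hz2'
  set V := VV z m (q * m) with hV
  have hV0 : V ≠ 0 := by linarith only [hV1]
  have hVpos : 0 < V := by linarith only [hV1]
  have hlogE0 : 0 ≤ Real.log E := Real.log_nonneg (by linarith only [hEr])
  -- the hypotheses on `P`
  have hom := om_nonneg y z
  have hPo2 : (P.card : ℝ) * om y z ≤ (E : ℝ) ^ 2 := by
    refine hPo.trans ?_
    have h1 : Real.log E ≤ E := Real.log_le_self hEpos.le
    calc c * (E * Real.log E) ≤ 1 * (E * E) := by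
          apply mul_le_mul hcone _ (by positivity) (by norm_num)
          exact mul_le_mul_of_nonneg_left h1 hEpos.le
      _ = (E : ℝ) ^ 2 := by ring
  have hPy : P.card ≤ y := by
    have := Finset.card_le_card hP
    rwa [Nat.card_Icc, Nat.add_sub_cancel] at this
  have hSr : Sr E z x y := ⟨hz1, hx1, hx2, hy1, hy2, hy3⟩
  have hMr : (E : ℝ) / 17 ≤ ((E / 16 : ℕ) : ℝ) := by
    have : E ≤ 17 * (E / 16) := by clear hj hK v2 v4 v5; omega
    have h3 : (E : ℝ) ≤ 17 * ((E / 16 : ℕ) : ℝ) := by exact_mod_cast this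
    linarith only [h3]
  have hx0' : 0 < x := lt_of_lt_of_le (pow_pos (by omega) E) hx1
  have hyz0 : 0 + y ≤ z := by
    have hx0 : (0 : ℝ) < x := by exact_mod_cast hx0'
    have hlx : (E : ℝ) ≤ Real.log x := by
      have h1 : (z : ℝ) ^ E ≤ x := by exact_mod_cast hx1
      have hzp : (0 : ℝ) < z := lt_of_lt_of_le (Real.exp_pos _) hz1
      have h2 : Real.log ((z : ℝ) ^ E) ≤ Real.log x := Real.log_le_log (by positivity) h1
      rw [Real.log_pow] at h2
      have h3 : (E : ℝ) ≤ Real.log z := by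
        rw [Real.le_log_iff_exp_le hzp]
        exact hz1
      nlinarith only [hEr, h2, h3]
    have hl0 : 0 < Real.log x := by linarith only [hEr, hlx]
    have h4 : 2 * Real.log (Real.log x) ≤ E := by
      by_contra hcon
      push Not at hcon
      have h5 : (150 : ℝ) ≤ Real.log (Real.log x) := by linarith only [hEr, hcon]
      have h6 : (2 : ℝ) ≤ Real.log (Real.log x) ^ 2 := by nlinarith only [hEr, hcon]
      have h7 : Real.log (Real.log x) ^ 3 =
        Real.log (Real.log x) * Real.log (Real.log x) ^ 2 := by ring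
      nlinarith
    have h8 : (y : ℝ) ≤ z := by
      refine hy2.trans (le_trans (le_of_eq ?_) ((Real.exp_le_exp.2 h4).trans hz1))
      rw [two_mul, Real.exp_add, Real.exp_log hl0, sq]
    have h9 : y ≤ z := by exact_mod_cast h8
    omega
  have hP0 : P ⊆ Icc (0 + 1) (0 + y) := by
    rw [Nat.zero_add, Nat.zero_add]
    exact hP
  have hIn : In x (x / 32) x (QQ x) b := ⟨dvd_rfl, hb, by omega⟩
  obtain ⟨hD1, _⟩ := hS1 E z x y hEES hSr (x / 32) x (QQ x) b hIn m q v1 hqm hV1 hK 0 hyz0 P hP0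
    hPo2
  have hG := hGT E z x y hEEG hSr (x / 32) x (QQ x) b hIn m q v1 hqm hV1 hK 0 hyz0 P hP0 hPo2
  -- the tail
  have htail := tail Pool.Agent.Helper28.RR.ra m q (E / 16) z y (q / 2) P hPy hV0 hj (by
    refine le_trans ?_ hMr
    rw [← hV]
    have h1 : (P.card : ℝ) * om y z * (1 / V) ≤ c * (E * Real.log E) * (1 / V) :=
      mul_le_mul_of_nonneg_right hPo (by positivity)
    have h2 : c * (E * Real.log E) * (1 / V) ≤ E / 100 := by
      rw [mul_one_div, div_le_iff₀ hVpos]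
      have h3 : c * Real.log E ≤ V / 100 := by
        calc c * Real.log E ≤ c1 / 100 * Real.log E :=
              mul_le_mul_of_nonneg_right hcl hlogE0
          _ ≤ V / 100 := by linarith only [hVlog]
      calc c * (E * Real.log E) = E * (c * Real.log E) := by ring
        _ ≤ E * (V / 100) := mul_le_mul_of_nonneg_left h3 hEpos.le
        _ = E / 100 * V := by ring
    linarith only [hEr, h1, h2])
  have hDt : Dt E z y P = DB m q (E / 16) z y P := rfl
  rw [hDt]
  set D := DB m q (E / 16) z y P with hD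
  set Sig := ∑ r ∈ (TB m q (E / 16) z P).filter (fun r => E / 16 < cost z r + q * m),
    wb m q y z r with hSig
  have hXX : 0 < XI (x / 32) x (QQ x) := XI_pos (by omega) hIn
  have hD0 : 0 < D := by linarith only [hD1]
  have hSigD : Sig ≤ 1 / 2 ^ (q / 2) * D := by
    rw [one_div, ← div_eq_inv_mul, le_div_iff₀ (by positivity), mul_comm]
    exact htail
  have hA : ∑ n ∈ NI (x / 32) x (QQ x) b,
      Wt E z y P n ^ 2 * ((P.filter (fun h => (n + h).Prime)).card : ℝ) ≤
      ∑ n ∈ NI (x / 32) x (QQ x) b, ∑ h : P, GB m q (E / 16) z y P h n ^ 2 := by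
    refine Finset.sum_le_sum fun n hn => ?_
    have hn1 : x / 32 < n := (Finset.mem_Ioc.mp (Finset.mem_filter.mp hn).1).1
    have hzn : z ^ (E / 16) ≤ n := by
      have h6 : z ^ (E / 16) * 32 ≤ x := by
        refine le_trans ?_ hx1
        calc z ^ (E / 16) * 32 = z ^ (E / 16) * 2 ^ 5 := by norm_num
          _ ≤ z ^ (E / 16) * z ^ 5 := Nat.mul_le_mul_left _ (Nat.pow_le_pow_left hz2' 5)
          _ = z ^ (E / 16 + 5) := (pow_add _ _ _).symm
          _ ≤ z ^ E := Nat.pow_le_pow_right (by omega) (by omega)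
      omega
    exact point Pool.Agent.Helper59.RR.pw m q (E / 16) z y n P v3 v1 hz2' hV0 hqm hzn
  rw [Finset.sum_comm] at hA
  have hB := hA.trans (Finset.sum_le_sum fun h _ => hG h)
  rw [Finset.sum_const, nsmul_eq_mul, Finset.card_univ, Fintype.card_coe] at hB
  refine hB.trans ?_
  have hSig0 : Sig + Real.exp (-(cG * E)) ≤
      1 / 2 ^ (q / 2) * D + Real.exp (-(cG * E)) * D := by
    have h1 : Real.exp (-(cG * E)) ≤ Real.exp (-(cG * E)) * D :=
      le_mul_of_one_le_right (Real.exp_pos _).le hD1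
    linarith only [hSigD, h1]
  have hPom : 0 ≤ (P.card : ℝ) * om y z := mul_nonneg (Nat.cast_nonneg _) hom
  calc (P.card : ℝ) * (XI (x / 32) x (QQ x) * om y z * (Sig + Real.exp (-(cG * E))))
      = XI (x / 32) x (QQ x) * ((P.card : ℝ) * om y z * (Sig + Real.exp (-(cG * E)))) := by ring
    _ ≤ XI (x / 32) x (QQ x) * ((P.card : ℝ) * om y z *
          (1 / 2 ^ (q / 2) * D + Real.exp (-(cG * E)) * D)) := by gcongr
    _ ≤ XI (x / 32) x (QQ x) * ((E : ℝ) ^ 2 *
          (1 / 2 ^ (q / 2) * D + Real.exp (-(cG * E)) * D)) := by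
        have : 0 ≤ 1 / 2 ^ (q / 2) * D + Real.exp (-(cG * E)) * D := by positivity
        gcongr
    _ = XI (x / 32) x (QQ x) * D * ((E : ℝ) ^ 2 * (1 / 2 ^ (q / 2)) +
          (E : ℝ) ^ 2 * Real.exp (-(cG * E))) := by ring
    _ ≤ XI (x / 32) x (QQ x) * D * (η / 2 + η / 2) :=
        mul_le_mul_of_nonneg_left (add_le_add s1 s2) (by positivity)
    _ = η * (XI (x / 32) x (QQ x) * D) := by ring

end Pool.Agent.Helper88.CG
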