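import Pool.Agent.Helper88.CG.Goals
import Pool.Agent.Helper31.LG.SM

set_option autoImplicit false

open Finset Filter Topology

open scoped Classical

namespace Pool.Agent.Helper88.CG

open Pool.Agent.Helper88.PP (pr Rg om Sf SS uu vv ee LA VV QQ cost)
open Pool.Agent.Helper88.RR (gg ab TB WB nz DB VM)
open Pool.Agent.Helper88.GM (NI XI gB Sr In)

lemma te_tel (F : ℕ → ℝ) (s : Finset ℕ) (hs : ∀ p ∈ s, 2 ≤ p) :
    |F (∏ p ∈ s, p) - F 1 / ∏ p ∈ s, ((p : ℝ) - 1)|
      ≤ ∑ p ∈ s, |F ((∏ q ∈ s.filter (fun q => q < p), q) * p)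
          - F (∏ q ∈ s.filter (fun q => q < p), q) / ((p : ℝ) - 1)|
            / ∏ q ∈ s.filter (fun q => p < q), ((q : ℝ) - 1) := by
  induction s using Finset.induction_on_max with
  | empty => simp
  | insert q s hq ih =>
    have hqs : q ∉ s := fun h => lt_irrefl _ (hq q h)
    have hs' : ∀ p ∈ s, 2 ≤ p := fun p hp => hs p (mem_insert_of_mem hp)
    have ih := ih hs'
    have hq2 : (2 : ℝ) ≤ q := by exact_mod_cast hs q (mem_insert_self _ _)
    have hq1 : (0 : ℝ) < (q : ℝ) - 1 := by linarith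
    rw [prod_insert hqs, prod_insert hqs, sum_insert hqs]
    have e1 : (insert q s).filter (fun t => t < q) = s := by
      ext t
      simp only [mem_filter, mem_insert]
      constructor
      · rintro ⟨h | h, h2⟩
        · omega
        · exact h
      · intro h
        exact ⟨Or.inr h, hq t h⟩
    have e2 : (insert q s).filter (fun t => q < t) = ∅ := by
      ext t
      simp only [mem_filter, mem_insert, notMem_empty, iff_false, not_and, not_lt]
      rintro (h | h)
      · omega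
      · exact (hq t h).le
    rw [e1, e2, prod_empty, div_one]
    have e3 : ∀ p ∈ s, (insert q s).filter (fun t => t < p) = s.filter (fun t => t < p) := by
      intro p hp
      rw [filter_insert, if_neg (by have := hq p hp; omega)]
    have e4 : ∀ p ∈ s, (insert q s).filter (fun t => p < t)
        = insert q (s.filter (fun t => p < t)) := by
      intro p hp
      rw [filter_insert, if_pos (hq p hp)]
    have e5 : ∑ p ∈ s, |F ((∏ t ∈ (insert q s).filter (fun t => t < p), t) * p)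
          - F (∏ t ∈ (insert q s).filter (fun t => t < p), t) / ((p : ℝ) - 1)|
            / ∏ t ∈ (insert q s).filter (fun t => p < t), ((t : ℝ) - 1)
        = (∑ p ∈ s, |F ((∏ t ∈ s.filter (fun t => t < p), t) * p)
          - F (∏ t ∈ s.filter (fun t => t < p), t) / ((p : ℝ) - 1)|
            / ∏ t ∈ s.filter (fun t => p < t), ((t : ℝ) - 1)) / ((q : ℝ) - 1) := by
      rw [sum_div]
      refine sum_congr rfl fun p hp => ?_
      rw [e3 p hp, e4 p hp, prod_insert (by simp [hqs])]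
      rw [div_div, mul_comm ((q : ℝ) - 1)]
    rw [e5]
    have e6 : F (q * ∏ p ∈ s, p) - F 1 / (((q : ℝ) - 1) * ∏ p ∈ s, ((p : ℝ) - 1))
        = (F ((∏ p ∈ s, p) * q) - F (∏ p ∈ s, p) / ((q : ℝ) - 1))
          + (F (∏ p ∈ s, p) - F 1 / ∏ p ∈ s, ((p : ℝ) - 1)) / ((q : ℝ) - 1) := by
      rw [mul_comm q, mul_comm ((q : ℝ) - 1), sub_div, div_div]
      ring
    rw [e6]
    refine (abs_add_le _ _).trans (add_le_add le_rfl ?_)
    rw [abs_div, abs_of_pos hq1]
    exact div_le_div_of_nonneg_right ih hq1.le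

lemma te_sum (z R : ℕ) (g : ℕ → ℝ) (hg : ∀ p, p.Prime → 0 ≤ g p) :
    ∑ D ∈ SS z (R + 1), ∏ p ∈ D.primeFactors, g p ≤ ∏ p ∈ pr z R, (1 + g p) := by
  have h1 : ∏ p ∈ pr z R, (1 + g p) = ∑ t ∈ (pr z R).powerset, ∏ p ∈ t, g p := by
    rw [prod_one_add]
  rw [h1]
  have hmem : ∀ D ∈ SS z (R + 1), Squarefree D ∧ 1 ≤ D ∧ D ≤ R ∧ ∀ p, p.Prime → p ∣ D → z < p := by
    intro D hD
    simp only [SS, mem_filter, mem_Ico, Sf] at hD
    exact ⟨hD.2.1, hD.1.1, by omega, hD.2.2⟩
  have hinj : Set.InjOn Nat.primeFactors (SS z (R + 1) : Set ℕ) := by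
    intro D hD D' hD' h
    rw [← Nat.prod_primeFactors_of_squarefree (hmem D hD).1,
      ← Nat.prod_primeFactors_of_squarefree (hmem D' hD').1]
    rw [h]
  rw [← sum_image (f := fun t => ∏ p ∈ t, g p) hinj]
  refine sum_le_sum_of_subset_of_nonneg ?_ ?_
  · intro t ht
    rw [mem_image] at ht
    obtain ⟨D, hD, rfl⟩ := ht
    rw [mem_powerset]
    intro p hp
    have hp1 := Nat.prime_of_mem_primeFactors hp
    have hp2 := Nat.dvd_of_mem_primeFactors hp
    have h := hmem D hD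
    simp only [pr, mem_filter, mem_Ioc]
    exact ⟨⟨h.2.2.2 p hp1 hp2, (Nat.le_of_dvd (by omega) hp2).trans h.2.2.1⟩, hp1⟩
  · intro t ht _
    rw [mem_powerset] at ht
    refine prod_nonneg fun p hp => hg p ?_
    have := ht hp
    simp only [pr, mem_filter] at this
    exact this.2


lemma te_dy (A x0 : ℕ) (hRB : ∀ x k P : ℕ, x0 ≤ x → 1 ≤ k → 1 ≤ P → (k * P) ^ 4 ≤ x →
    ∀ a : ℕ → ℕ, (∀ p ∈ prk k P, Nat.Coprime (a p) (k * p)) →
    ∑ p ∈ prk k P, |th x (k * p) (a p) - th x k (a p) / ((p : ℝ) - 1)|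
      ≤ x / k * Real.log x ^ A * (1 / P + (x : ℝ) ^ (-(1 / 50) : ℝ)))
    (x k z R u v : ℕ) (h0 : x0 ≤ x) (hx1 : 1 ≤ x) (hk : 1 ≤ k) (hz : 1 ≤ z)
    (hkp : ∀ p : ℕ, p.Prime → p ∣ k → p ≤ z) (hR : (k * R) ^ 4 ≤ x) (a : ℕ → ℕ)
    (ha : ∀ D ∈ SS z (R + 1), Nat.Coprime (a D) (k * D)) (hu : 1 ≤ u) (hv : 1 ≤ v) :
    ∑ p ∈ (pr z R).filter (fun p => u * p * v ∈ SS z (R + 1)),
      |th x (k * u * p) (a (u * p * v)) - th x (k * u) (a (u * p * v)) / ((p : ℝ) - 1)|
    ≤ x / (k * u) * Real.log x ^ A * (2 / z + ((Nat.log 2 R + 1 : ℕ) : ℝ) *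
        (x : ℝ) ^ (-(1 / 50) : ℝ)) := by
  set V : ℕ → ℝ := fun p =>
    |th x (k * u * p) (a (u * p * v)) - th x (k * u) (a (u * p * v)) / ((p : ℝ) - 1)| with hV
  have hV0 : ∀ p, 0 ≤ V p := fun p => abs_nonneg _
  have hmem : ∀ D ∈ SS z (R + 1), Squarefree D ∧ 1 ≤ D ∧ D ≤ R ∧ ∀ p, p.Prime → p ∣ D → z < p := by
    intro D hD
    simp only [SS, mem_filter, mem_Ico, Sf] at hD
    exact ⟨hD.2.1, hD.1.1, by omega, hD.2.2⟩
  have hx0 : (0 : ℝ) < x := by exact_mod_cast hx1
  have hlog : 0 ≤ Real.log x := Real.log_natCast_nonneg x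
  set S := (pr z R).filter (fun p => u * p * v ∈ SS z (R + 1)) with hS
  set I := Nat.log 2 R + 1 with hI
  have h1 : ∑ p ∈ S, V p ≤ ∑ p ∈ S, ∑ i ∈ range I,
      if p ∈ Ioc (z * 2 ^ i) (2 * (z * 2 ^ i)) then V p else 0 := by
    refine sum_le_sum fun p hp => ?_
    simp only [hS, mem_filter, pr, mem_Ioc] at hp
    obtain ⟨⟨⟨hzp, hpR⟩, hpp⟩, hD⟩ := hp
    have hq1 : 1 ≤ (p - 1) / z := (Nat.one_le_div_iff (by omega)).mpr (by omega)
    have h2 : 2 ^ (Nat.log 2 ((p - 1) / z)) ≤ (p - 1) / z := Nat.pow_log_le_self 2 (by omega)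
    have h3 : (p - 1) / z < 2 ^ (Nat.log 2 ((p - 1) / z) + 1) :=
      Nat.lt_pow_succ_log_self (by norm_num) _
    have h4 : z * 2 ^ (Nat.log 2 ((p - 1) / z)) ≤ p - 1 :=
      (Nat.mul_le_mul_left z h2).trans (Nat.mul_div_le _ _)
    have h5 : p - 1 < z * 2 ^ (Nat.log 2 ((p - 1) / z) + 1) := by
      have := (Nat.div_lt_iff_lt_mul (by omega : 0 < z)).mp h3
      rw [mul_comm] at this
      exact this
    have h6 : Nat.log 2 ((p - 1) / z) ∈ range I := by
      rw [mem_range, hI]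
      have : Nat.log 2 ((p - 1) / z) ≤ Nat.log 2 R :=
        Nat.log_mono_right ((Nat.div_le_self _ _).trans (by omega))
      omega
    have h7 : V p = if p ∈ Ioc (z * 2 ^ (Nat.log 2 ((p - 1) / z)))
        (2 * (z * 2 ^ (Nat.log 2 ((p - 1) / z)))) then V p else 0 := by
      rw [if_pos]
      rw [mem_Ioc]
      rw [pow_succ] at h5
      constructor
      · omega
      · have : z * (2 ^ Nat.log 2 ((p - 1) / z) * 2) = 2 * (z * 2 ^ Nat.log 2 ((p - 1) / z)) := by
          ring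
        omega
    calc V p = _ := h7
      _ ≤ _ := single_le_sum (f := fun i => if p ∈ Ioc (z * 2 ^ i) (2 * (z * 2 ^ i)) then V p else 0)
          (fun i _ => by split_ifs <;> first | exact hV0 p | exact le_rfl) h6
  rw [sum_comm] at h1
  have h2 : ∀ i ∈ range I, (∑ p ∈ S, if p ∈ Ioc (z * 2 ^ i) (2 * (z * 2 ^ i)) then V p else 0)
      ≤ x / (k * u) * Real.log x ^ A * (1 / z * (1 / 2) ^ i + (x : ℝ) ^ (-(1 / 50) : ℝ)) := by
    intro i _
    rw [← sum_filter]
    rcases (S.filter (fun p => p ∈ Ioc (z * 2 ^ i) (2 * (z * 2 ^ i)))).eq_empty_or_nonempty with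
      he | ⟨p0, hp0⟩
    · rw [he, sum_empty]
      positivity
    · rw [mem_filter, mem_Ioc] at hp0
      have hp0' := hp0.1
      simp only [hS, mem_filter, pr, mem_Ioc] at hp0'
      have hD0 := hmem _ hp0'.2
      have h3 : u * (z * 2 ^ i) ≤ R := by
        calc u * (z * 2 ^ i) ≤ u * p0 := Nat.mul_le_mul_left u hp0.2.1.le
          _ ≤ u * p0 * v := Nat.le_mul_of_pos_right _ (by omega)
          _ ≤ R := hD0.2.2.1
      have h4 : (k * u * (z * 2 ^ i)) ^ 4 ≤ x := by
        refine le_trans (Nat.pow_le_pow_left ?_ 4) hR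
        rw [mul_assoc]
        exact Nat.mul_le_mul_left k h3
      have h5 := hRB x (k * u) (z * 2 ^ i) h0 (Nat.mul_pos hk hu)
        (Nat.mul_pos hz (by positivity)) h4
        (fun p => if u * p * v ∈ SS z (R + 1) then a (u * p * v) else 1) (by
          intro p _
          split_ifs with h
          · have := ha _ h
            refine Nat.Coprime.coprime_dvd_right ?_ this
            exact ⟨v, by ring⟩
          · exact Nat.coprime_one_left _)
      have h6 : S.filter (fun p => p ∈ Ioc (z * 2 ^ i) (2 * (z * 2 ^ i)))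
          ⊆ prk (k * u) (z * 2 ^ i) := by
        intro p hp
        rw [mem_filter] at hp
        have hp' := hp.1
        simp only [hS, mem_filter, pr, mem_Ioc] at hp'
        have hD := hmem _ hp'.2
        simp only [prk, mem_filter]
        refine ⟨hp.2, hp'.1.2, ?_⟩
        intro hd
        rcases (Nat.Prime.dvd_mul hp'.1.2).mp hd with h | h
        · have := hkp p hp'.1.2 h
          omega
        · have h7 : p * p ∣ u * p * v := by
            obtain ⟨w, rfl⟩ := h
            exact ⟨w * v, by ring⟩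
          have h8 := hD.1 p h7
          exact hp'.1.2.not_isUnit h8
      calc ∑ p ∈ S.filter (fun p => p ∈ Ioc (z * 2 ^ i) (2 * (z * 2 ^ i))), V p
          = ∑ p ∈ S.filter (fun p => p ∈ Ioc (z * 2 ^ i) (2 * (z * 2 ^ i))),
            |th x (k * u * p) ((fun p => if u * p * v ∈ SS z (R + 1) then a (u * p * v) else 1) p)
              - th x (k * u) ((fun p => if u * p * v ∈ SS z (R + 1) then a (u * p * v) else 1) p)
                / ((p : ℝ) - 1)| := by
            refine sum_congr rfl fun p hp => ?_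
            rw [mem_filter] at hp
            have hp' := hp.1
            simp only [hS, mem_filter] at hp'
            simp only [hV, if_pos hp'.2]
        _ ≤ ∑ p ∈ prk (k * u) (z * 2 ^ i),
            |th x (k * u * p) ((fun p => if u * p * v ∈ SS z (R + 1) then a (u * p * v) else 1) p)
              - th x (k * u) ((fun p => if u * p * v ∈ SS z (R + 1) then a (u * p * v) else 1) p)
                / ((p : ℝ) - 1)| :=
            sum_le_sum_of_subset_of_nonneg h6 (fun _ _ _ => abs_nonneg _)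
        _ ≤ _ := h5
        _ = _ := by
            push_cast
            congr 2
            rw [one_div_pow, one_div_mul_one_div]
  refine h1.trans ((sum_le_sum h2).trans ?_)
  rw [← mul_sum, sum_add_distrib, ← mul_sum, sum_const, card_range, nsmul_eq_mul]
  refine mul_le_mul_of_nonneg_left ?_ (by positivity)
  refine add_le_add ?_ le_rfl
  have h3 : ∑ i ∈ range I, (1 / 2 : ℝ) ^ i ≤ 2 := sum_geometric_two_le I
  calc 1 / (z : ℝ) * ∑ i ∈ range I, (1 / 2 : ℝ) ^ i ≤ 1 / (z : ℝ) * 2 :=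
        mul_le_mul_of_nonneg_left h3 (by positivity)
    _ = 2 / z := by ring


lemma te_phi (D : ℕ) (hD : Squarefree D) :
    (Nat.totient D : ℝ) = ∏ p ∈ D.primeFactors, ((p : ℝ) - 1) := by
  have h0 : D ≠ 0 := hD.ne_zero
  have h1 := Nat.totient_mul_prod_primeFactors D
  rw [Nat.prod_primeFactors_of_squarefree hD, mul_comm] at h1
  have h2 : Nat.totient D = ∏ p ∈ D.primeFactors, (p - 1) :=
    Nat.eq_of_mul_eq_mul_left (Nat.pos_of_ne_zero h0) h1
  rw [h2]
  push_cast
  refine prod_congr rfl fun p hp => ?_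
  have := (Nat.prime_of_mem_primeFactors hp).one_le
  push_cast [this]
  ring

lemma te_mem {z R D : ℕ} : D ∈ SS z (R + 1) ↔
    Squarefree D ∧ 1 ≤ D ∧ D ≤ R ∧ ∀ p, p.Prime → p ∣ D → z < p := by
  simp only [SS, mem_filter, mem_Ico, Sf]
  constructor
  · rintro ⟨⟨h1, h2⟩, h3, h4⟩
    exact ⟨h3, h1, by omega, h4⟩
  · rintro ⟨h3, h1, h2, h4⟩
    exact ⟨⟨h1, by omega⟩, h3, h4⟩

lemma te_dvd {z R D u : ℕ} (hD : D ∈ SS z (R + 1)) (h : u ∣ D) : u ∈ SS z (R + 1) := by
  rw [te_mem] at hD ⊢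
  exact ⟨hD.1.squarefree_of_dvd h, Nat.pos_of_dvd_of_pos h hD.2.1,
    (Nat.le_of_dvd hD.2.1 h).trans hD.2.2.1, fun p hp hpd => hD.2.2.2 p hp (hpd.trans h)⟩

lemma te_split {z R D p : ℕ} (hD : D ∈ SS z (R + 1)) (hp : p ∈ D.primeFactors) :
    (∏ q ∈ D.primeFactors.filter (fun q => q < p), q) * p *
        (∏ q ∈ D.primeFactors.filter (fun q => p < q), q) = D ∧
    (∏ q ∈ D.primeFactors.filter (fun q => q < p), q).primeFactors
      = D.primeFactors.filter (fun q => q < p) ∧
    (∏ q ∈ D.primeFactors.filter (fun q => p < q), q).primeFactors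
      = D.primeFactors.filter (fun q => p < q) ∧
    D.primeFactors.card = (D.primeFactors.filter (fun q => q < p)).card + 1 +
      (D.primeFactors.filter (fun q => p < q)).card := by
  have hsq := (te_mem.mp hD).1
  have hdis1 : Disjoint (D.primeFactors.filter (fun q => q < p)) {p} := by
    rw [disjoint_singleton_right, mem_filter]
    rintro ⟨_, h⟩
    exact lt_irrefl _ h
  have hdis2 : Disjoint (D.primeFactors.filter (fun q => q < p) ∪ {p})
      (D.primeFactors.filter (fun q => p < q)) := by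
    rw [disjoint_left]
    intro q hq hq'
    simp only [mem_union, mem_filter, mem_singleton] at hq hq'
    rcases hq with h | h <;> omega
  have hu : D.primeFactors = (D.primeFactors.filter (fun q => q < p) ∪ {p}) ∪
      (D.primeFactors.filter (fun q => p < q)) := by
    ext q
    simp only [mem_union, mem_filter, mem_singleton]
    constructor
    · intro h
      rcases lt_trichotomy q p with h1 | h1 | h1
      · exact Or.inl (Or.inl ⟨h, h1⟩)
      · exact Or.inl (Or.inr h1)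
      · exact Or.inr ⟨h, h1⟩
    · rintro ((h | h) | h)
      · exact h.1
      · rw [h]; exact hp
      · exact h.1
  refine ⟨?_, ?_, ?_, ?_⟩
  · conv_rhs => rw [← Nat.prod_primeFactors_of_squarefree hsq, hu]
    rw [prod_union hdis2, prod_union hdis1, prod_singleton]
  · exact Nat.primeFactors_prod (fun q hq => Nat.prime_of_mem_primeFactors (mem_filter.mp hq).1)
  · exact Nat.primeFactors_prod (fun q hq => Nat.prime_of_mem_primeFactors (mem_filter.mp hq).1)
  · conv_lhs => rw [hu]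
    rw [card_union_of_disjoint hdis2, card_union_of_disjoint hdis1, card_singleton]

lemma te_main (A x0 : ℕ) (hRB : ∀ x k P : ℕ, x0 ≤ x → 1 ≤ k → 1 ≤ P → (k * P) ^ 4 ≤ x →
    ∀ a : ℕ → ℕ, (∀ p ∈ prk k P, Nat.Coprime (a p) (k * p)) →
    ∑ p ∈ prk k P, |th x (k * p) (a p) - th x k (a p) / ((p : ℝ) - 1)|
      ≤ x / k * Real.log x ^ A * (1 / P + (x : ℝ) ^ (-(1 / 50) : ℝ)))
    (x k z R L : ℕ) (h0 : x0 ≤ x) (hx1 : 1 ≤ x) (hk : 1 ≤ k) (hz : 1 ≤ z)
    (hkp : ∀ p : ℕ, p.Prime → p ∣ k → p ≤ z) (hR : (k * R) ^ 4 ≤ x) (a : ℕ → ℕ)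
    (ha : ∀ D ∈ SS z (R + 1), Nat.Coprime (a D) (k * D)) :
    ∑ D ∈ SS z (R + 1), (L : ℝ) ^ D.primeFactors.card *
      |th x (k * D) (a D) - th x k (a D) / (Nat.totient D : ℝ)|
    ≤ (∏ p ∈ pr z R, (1 + (L : ℝ) / ((p : ℝ) - 1))) ^ 2 * (L * (x / k * Real.log x ^ A *
        (2 / z + ((Nat.log 2 R + 1 : ℕ) : ℝ) * (x : ℝ) ^ (-(1 / 50) : ℝ)))) := by
  have hx0 : (0 : ℝ) < x := by exact_mod_cast hx1
  have hlog : 0 ≤ Real.log x := Real.log_natCast_nonneg x
  have hk0 : (0 : ℝ) < k := by exact_mod_cast hk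
  set B : ℝ := x / k * Real.log x ^ A *
        (2 / z + ((Nat.log 2 R + 1 : ℕ) : ℝ) * (x : ℝ) ^ (-(1 / 50) : ℝ)) with hB
  have hB0 : 0 ≤ B := by positivity
  set W : ℝ := ∏ p ∈ pr z R, (1 + (L : ℝ) / ((p : ℝ) - 1)) with hW
  set lo : ℕ → ℕ → ℕ := fun D p => ∏ q ∈ D.primeFactors.filter (fun q => q < p), q with hlo
  set hi : ℕ → ℕ → ℕ := fun D p => ∏ q ∈ D.primeFactors.filter (fun q => p < q), q with hhi
  set G : ℕ × ℕ × ℕ → ℝ := fun t => if t.1 * t.2.2 * t.2.1 ∈ SS z (R + 1) then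
    (L : ℝ) ^ t.1.primeFactors.card * L * (L : ℝ) ^ t.2.1.primeFactors.card *
      |th x (k * t.1 * t.2.2) (a (t.1 * t.2.2 * t.2.1))
        - th x (k * t.1) (a (t.1 * t.2.2 * t.2.1)) / ((t.2.2 : ℝ) - 1)|
        / (Nat.totient t.2.1 : ℝ) else 0 with hG
  have hG0 : ∀ t, 0 ≤ G t := by
    intro t
    simp only [hG]
    split_ifs
    · positivity
    · exact le_rfl
  -- step 1
  have h1 : ∀ D ∈ SS z (R + 1), (L : ℝ) ^ D.primeFactors.card *
      |th x (k * D) (a D) - th x k (a D) / (Nat.totient D : ℝ)|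
      ≤ ∑ p ∈ D.primeFactors, G (lo D p, hi D p, p) := by
    intro D hD
    have hsq := (te_mem.mp hD).1
    have h2 := te_tel (fun m => th x (k * m) (a D)) D.primeFactors
      (fun p hp => (Nat.prime_of_mem_primeFactors hp).two_le)
    rw [Nat.prod_primeFactors_of_squarefree hsq, mul_one, ← te_phi D hsq] at h2
    refine (mul_le_mul_of_nonneg_left h2 (by positivity)).trans ?_
    rw [mul_sum]
    refine sum_le_sum fun p hp => ?_
    obtain ⟨e1, e2, e3, e4⟩ := te_split hD hp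
    have hD' : lo D p * p * hi D p = D := e1
    simp only [hG]
    rw [hD', if_pos hD]
    have h5 : (hi D p).primeFactors = D.primeFactors.filter (fun q => p < q) := e3
    have h6 : (lo D p).primeFactors = D.primeFactors.filter (fun q => q < p) := e2
    have h7 : Squarefree (hi D p) := by
      refine hsq.squarefree_of_dvd ⟨lo D p * p, ?_⟩
      rw [mul_comm]
      exact hD'.symm
    rw [te_phi _ h7, h5, h6, e4, pow_add, pow_add, pow_one]
    rw [mul_assoc k, ← mul_div_assoc]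
  refine (sum_le_sum h1).trans ?_
  rw [sum_sigma']
  have hinj : Set.InjOn (fun t : (Σ _ : ℕ, ℕ) => ((lo t.1 t.2, hi t.1 t.2, t.2) : ℕ × ℕ × ℕ))
      (((SS z (R + 1)).sigma (fun D => D.primeFactors) : Finset (Σ _ : ℕ, ℕ)) :
        Set (Σ _ : ℕ, ℕ)) := by
    rintro ⟨D, p⟩ hD ⟨D', p'⟩ hD' h
    simp only [mem_coe, mem_sigma] at hD hD'
    simp only [Prod.mk.injEq] at h
    obtain ⟨h2, h3, h4⟩ := h
    subst h4
    have e1 : lo D p * p * hi D p = D := (te_split hD.1 hD.2).1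
    have e2 : lo D' p * p * hi D' p = D' := (te_split hD'.1 hD'.2).1
    have : D = D' := by rw [← e1, ← e2, h2, h3]
    subst this
    rfl
  have h2 : ∑ t ∈ (SS z (R + 1)).sigma (fun D => D.primeFactors), G (lo t.1 t.2, hi t.1 t.2, t.2)
      ≤ ∑ t ∈ (SS z (R + 1)) ×ˢ ((SS z (R + 1)) ×ˢ (pr z R)), G t := by
    rw [← sum_image (f := G) hinj]
    refine sum_le_sum_of_subset_of_nonneg ?_ (fun t _ _ => hG0 t)
    intro t ht
    rw [mem_image] at ht
    obtain ⟨⟨D, p⟩, hD, rfl⟩ := ht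
    rw [mem_sigma] at hD
    have e1 : lo D p * p * hi D p = D := (te_split hD.1 hD.2).1
    have hm := te_mem.mp hD.1
    have hp1 : p.Prime := Nat.prime_of_mem_primeFactors hD.2
    have hp2 : p ∣ D := Nat.dvd_of_mem_primeFactors hD.2
    simp only [mem_product]
    refine ⟨te_dvd hD.1 ⟨p * hi D p, by rw [← mul_assoc]; exact e1.symm⟩,
      te_dvd hD.1 ⟨lo D p * p, by rw [mul_comm]; exact e1.symm⟩, ?_⟩
    simp only [pr, mem_filter, mem_Ioc]
    exact ⟨⟨hm.2.2.2 p hp1 hp2, (Nat.le_of_dvd hm.2.1 hp2).trans hm.2.2.1⟩, hp1⟩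
  refine h2.trans ?_
  rw [sum_product]
  -- step 2
  have hgp : ∀ p : ℕ, p.Prime → (0 : ℝ) < (p : ℝ) - 1 := by
    intro p hp
    have : (2 : ℝ) ≤ p := by exact_mod_cast hp.two_le
    linarith only [this]
  have hWle : ∑ v ∈ SS z (R + 1), (L : ℝ) ^ v.primeFactors.card / (Nat.totient v : ℝ) ≤ W := by
    refine le_trans (le_of_eq ?_) (te_sum z R (fun p => (L : ℝ) / ((p : ℝ) - 1))
      (fun p hp => div_nonneg (by positivity) (hgp p hp).le))
    refine sum_congr rfl fun v hv => ?_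
    rw [te_phi v (te_mem.mp hv).1, prod_div_distrib, prod_const]
  have hWle2 : ∑ u ∈ SS z (R + 1), (L : ℝ) ^ u.primeFactors.card / (u : ℝ) ≤ W := by
    refine le_trans (sum_le_sum fun u hu => ?_) hWle
    have h1u := (te_mem.mp hu).2.1
    refine div_le_div_of_nonneg_left (by positivity) ?_ ?_
    · exact_mod_cast Nat.totient_pos.mpr h1u
    · exact_mod_cast Nat.totient_le u
  have hW0 : 0 ≤ W := by
    refine le_trans (sum_nonneg fun u _ => ?_) hWle2
    positivity
  have h3 : ∀ u ∈ SS z (R + 1), ∑ t ∈ (SS z (R + 1)) ×ˢ (pr z R), G (u, t)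
      ≤ ∑ v ∈ SS z (R + 1), ((L : ℝ) ^ u.primeFactors.card / (u : ℝ)) *
        ((L : ℝ) ^ v.primeFactors.card / (Nat.totient v : ℝ)) * (L * B) := by
    intro u hu
    rw [sum_product]
    refine sum_le_sum fun v hv => ?_
    have hu1 := (te_mem.mp hu).2.1
    have hv1 := (te_mem.mp hv).2.1
    have hu0 : (0 : ℝ) < u := by exact_mod_cast hu1
    have h4 := te_dy A x0 hRB x k z R u v h0 hx1 hk hz hkp hR a ha hu1 hv1
    have h5 : ∑ p ∈ pr z R, G (u, v, p)
        = ((L : ℝ) ^ u.primeFactors.card * L * (L : ℝ) ^ v.primeFactors.card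
            / (Nat.totient v : ℝ)) *
          ∑ p ∈ (pr z R).filter (fun p => u * p * v ∈ SS z (R + 1)),
          |th x (k * u * p) (a (u * p * v)) - th x (k * u) (a (u * p * v)) / ((p : ℝ) - 1)| := by
      rw [mul_sum, sum_filter]
      refine sum_congr rfl fun p _ => ?_
      simp only [hG]
      split_ifs
      · ring
      · rfl
    rw [h5]
    refine (mul_le_mul_of_nonneg_left h4 (by positivity)).trans (le_of_eq ?_)
    rw [hB]
    field_simp
  refine (sum_le_sum h3).trans ?_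
  have h4 : ∑ u ∈ SS z (R + 1), ∑ v ∈ SS z (R + 1), ((L : ℝ) ^ u.primeFactors.card / (u : ℝ)) *
        ((L : ℝ) ^ v.primeFactors.card / (Nat.totient v : ℝ)) * (L * B)
      = ((∑ u ∈ SS z (R + 1), (L : ℝ) ^ u.primeFactors.card / (u : ℝ)) *
        ∑ v ∈ SS z (R + 1), (L : ℝ) ^ v.primeFactors.card / (Nat.totient v : ℝ)) * (L * B) := by
    rw [sum_mul_sum, sum_mul]
    refine sum_congr rfl fun u _ => ?_
    rw [sum_mul]
  rw [h4]
  refine mul_le_mul_of_nonneg_right ?_ (by positivity)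
  rw [sq]
  exact mul_le_mul hWle2 hWle (sum_nonneg fun v _ => by positivity) hW0


lemma te_mert (C : ℝ) (hC : ∀ w : ℕ, 2 ≤ w →
    ∑ p ∈ (Icc 1 w).filter Nat.Prime, Real.log p / p ≤ C * Real.log w) (z : ℕ) (hz : 2 ≤ z)
    (J : ℕ) : ∑ p ∈ pr z (z ^ (2 ^ J)), 1 / (p : ℝ) ≤ 2 * C * J := by
  induction J with
  | zero => simp [pr]
  | succ J ih =>
    set w := z ^ (2 ^ J) with hw
    have hzw : z ≤ w := by
      calc z = z ^ 1 := (pow_one z).symm
        _ ≤ z ^ (2 ^ J) := Nat.pow_le_pow_right (by omega) (Nat.one_le_two_pow)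
    have hww : z ^ (2 ^ (J + 1)) = w ^ 2 := by
      rw [hw, ← pow_mul, pow_succ]
    have hw2 : 2 ≤ w := hz.trans hzw
    have hw2' : w ≤ w ^ 2 := Nat.le_self_pow (by norm_num) w
    have h1 : pr z (z ^ (2 ^ (J + 1))) = pr z w ∪ pr w (w ^ 2) := by
      rw [hww]
      unfold pr
      rw [← filter_union, Ioc_union_Ioc_eq_Ioc hzw hw2']
    have hdis : Disjoint (pr z w) (pr w (w ^ 2)) := by
      rw [disjoint_left]
      intro p hp hp'
      simp only [pr, mem_filter, mem_Ioc] at hp hp'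
      omega
    rw [h1, sum_union hdis]
    have hlw : 0 < Real.log w := Real.log_pos (by exact_mod_cast hw2)
    have h2 : ∑ p ∈ pr w (w ^ 2), 1 / (p : ℝ) ≤ 2 * C := by
      have h3 := hC (w ^ 2) (by omega)
      have h4 : ∑ p ∈ pr w (w ^ 2), Real.log w * (1 / (p : ℝ))
          ≤ ∑ p ∈ (Icc 1 (w ^ 2)).filter Nat.Prime, Real.log p / p := by
        calc ∑ p ∈ pr w (w ^ 2), Real.log w * (1 / (p : ℝ))
            ≤ ∑ p ∈ pr w (w ^ 2), Real.log p / p := by
              refine sum_le_sum fun p hp => ?_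
              simp only [pr, mem_filter, mem_Ioc] at hp
              rw [mul_one_div]
              refine div_le_div_of_nonneg_right ?_ (by positivity)
              exact Real.log_le_log (by exact_mod_cast (by omega : 0 < w))
                (by exact_mod_cast hp.1.1.le)
          _ ≤ _ := by
              refine sum_le_sum_of_subset_of_nonneg ?_ ?_
              · intro p hp
                simp only [pr, mem_filter, mem_Ioc, mem_Icc] at hp ⊢
                exact ⟨⟨by omega, hp.1.2⟩, hp.2⟩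
              · intro p _ _
                exact div_nonneg (Real.log_natCast_nonneg p) (by positivity)
      rw [← mul_sum] at h4
      have h5 : Real.log ((w ^ 2 : ℕ) : ℝ) = 2 * Real.log w := by
        push_cast
        rw [Real.log_pow]
        norm_num
      rw [h5] at h3
      have h6 : Real.log w * ∑ p ∈ pr w (w ^ 2), 1 / (p : ℝ) ≤ Real.log w * (2 * C) := by
        linarith
      exact le_of_mul_le_mul_left h6 hlw
    push_cast
    linarith


/-- CG-TE: telescoping over the prime factors of `D` and the weighted sum over `D`. -/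
theorem te (h : StmtRB) : StmtTE := by
  obtain ⟨A, x0, hRB⟩ := h
  obtain ⟨C, hC0, hC⟩ := Pool.Agent.Helper31.LG.mertens
  set η : ℝ := 1 / (200 * (C + 1)) with hη
  have hη0 : 0 < η := by positivity
  have hev : ∀ᶠ s : ℝ in atTop, Real.log s ≤ η * s ∧ 16 * (8 * C + 2 * η + A + 1) ≤ s ∧
      8 ≤ s ∧ (x0 : ℝ) ≤ s := by
    have h1 : ∀ᶠ s : ℝ in atTop, ‖Real.log s‖ ≤ η * ‖(id s : ℝ)‖ :=
      (Asymptotics.isLittleO_iff.mp Real.isLittleO_log_id_atTop) hη0
    filter_upwards [h1, eventually_ge_atTop (16 * (8 * C + 2 * η + A + 1)),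
      eventually_ge_atTop (8 : ℝ), eventually_ge_atTop (x0 : ℝ)] with s hs h2 h3 h4
    refine ⟨?_, h2, h3, h4⟩
    rw [Real.norm_eq_abs, Real.norm_eq_abs, id, abs_of_nonneg (by linarith : (0:ℝ) ≤ s)] at hs
    exact (le_abs_self _).trans hs
  have hev2 : ∀ᶠ E : ℕ in atTop, Real.log (√(E : ℝ)) ≤ η * √(E : ℝ) ∧
      16 * (8 * C + 2 * η + A + 1) ≤ √(E : ℝ) ∧ 8 ≤ √(E : ℝ) ∧ (x0 : ℝ) ≤ √(E : ℝ) :=
    (Real.tendsto_sqrt_atTop.comp tendsto_natCast_atTop_atTop).eventually hev
  obtain ⟨E0, hE0⟩ := eventually_atTop.mp hev2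
  refine ⟨1 / 2, by norm_num, E0, ?_⟩
  intro E z x y hE hSr k L hk hkp hL hR a ha
  obtain ⟨hz, hzx, -, -, -, hll⟩ := hSr
  obtain ⟨hs1, hs2, hs3, hs4⟩ := hE0 E hE
  set s : ℝ := √(E : ℝ) with hs
  have hsq : s ^ 2 = E := Real.sq_sqrt (by positivity)
  have hs0 : 0 < s := by linarith only [hC0, hη0, hs2]
  have hE64 : (64 : ℝ) ≤ E := by rw [← hsq]; nlinarith only [hC0, hη0, hs2]
  have hsE : s ≤ E := by rw [← hsq]; nlinarith only [hC0, hη0, hs2]
  have hE64' : 64 ≤ E := by exact_mod_cast hE64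
  -- sizes
  have hz1 : (1 : ℝ) < z := lt_of_lt_of_le (Real.one_lt_exp_iff.mpr (by linarith only [hC0, hη0, hs2, hsE])) hz
  have hz2 : 2 ≤ z := by
    have : 1 < z := by exact_mod_cast hz1
    omega
  have hzx' : (z : ℝ) ^ E ≤ x := by exact_mod_cast hzx
  have hx2 : Real.exp ((E : ℝ) * E) ≤ x := by
    refine le_trans ?_ hzx'
    rw [Real.exp_nat_mul]
    exact pow_le_pow_left₀ (Real.exp_pos _).le hz E
  have hxpos : (0 : ℝ) < x := lt_of_lt_of_le (Real.exp_pos _) hx2
  have hlx : (E : ℝ) * E ≤ Real.log x := by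
    rw [Real.le_log_iff_exp_le hxpos]
    exact hx2
  have hl1 : (1 : ℝ) ≤ Real.log x := by nlinarith only [hC0, hη0, hs2, hsq, hsE, hlx, hE64]
  have hxE : (E : ℝ) ≤ x := by
    have h1 : (E : ℝ) * E + 1 ≤ Real.exp ((E : ℝ) * E) := Real.add_one_le_exp _
    nlinarith only [hC0, hη0, hs2, hsq, hsE, hx2, h1, hE64]
  have hx0 : x0 ≤ x := by
    have : (x0 : ℝ) ≤ x := by linarith only [hs4, hsE, hxE]
    exact_mod_cast this
  have hx1 : 1 ≤ x := by
    have : (0 : ℝ) < x := hxpos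
    exact_mod_cast this
  set R := z ^ (2 * (E / 16)) with hRdef
  have hmain := te_main A x0 hRB x k z R L hx0 hx1 hk (by omega) hkp hR a ha
  refine hmain.trans ?_
  have hk0 : (0 : ℝ) < k := by exact_mod_cast hk
  -- log x is small
  have hll2 : Real.log (Real.log x) ≤ s := by
    by_contra hcon
    push Not at hcon
    have h1 : s ^ 3 < Real.log (Real.log x) ^ 3 := pow_lt_pow_left₀ hcon hs0.le (by norm_num)
    have h2 : (E : ℝ) ≤ s ^ 3 := by rw [← hsq]; nlinarith only [hC0, hη0, hll, hs2, hsq, hsE, h1]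
    linarith only [hll, h1, h2]
  have hlx2 : Real.log x ≤ Real.exp s := by
    rw [← Real.log_le_iff_le_exp (by linarith only [hl1])]
    exact hll2
  -- the product
  set J := Nat.log 2 E + 1 with hJ
  have hRJ : R ≤ z ^ (2 ^ J) := by
    refine Nat.pow_le_pow_right (by omega) ?_
    have : E < 2 ^ J := Nat.lt_pow_succ_log_self (by norm_num) _
    omega
  have hJs : (J : ℝ) ≤ 4 * Real.log s + 1 := by
    have h1 : 2 ^ (Nat.log 2 E) ≤ E := Nat.pow_log_le_self 2 (by omega)
    have h2 : ((2 : ℝ)) ^ (Nat.log 2 E) ≤ E := by exact_mod_cast h1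
    have h3 : (Nat.log 2 E : ℝ) * Real.log 2 ≤ Real.log E := by
      rw [← Real.log_pow]
      exact Real.log_le_log (by positivity) h2
    have h4 : Real.log E = 2 * Real.log s := by
      rw [← hsq, Real.log_pow]
      norm_num
    have h5 : (1 / 2 : ℝ) ≤ Real.log 2 := by linarith only [Real.log_two_gt_d9]
    rw [h4] at h3
    have h6 : (0 : ℝ) ≤ (Nat.log 2 E : ℝ) := by positivity
    have h7 : (Nat.log 2 E : ℝ) * (1 / 2) ≤ Nat.log 2 E * Real.log 2 :=
      mul_le_mul_of_nonneg_left h5 h6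
    rw [hJ]
    push_cast
    linarith only [h3, h7]
  have hLs : (L : ℝ) ≤ s := by
    rw [hs]
    refine Real.le_sqrt_of_sq_le ?_
    exact_mod_cast hL
  have hprod : ∏ p ∈ pr z R, (1 + (L : ℝ) / ((p : ℝ) - 1)) ≤ Real.exp (4 * C * s * J) := by
    have hgp : ∀ p ∈ pr z R, (0 : ℝ) < (p : ℝ) - 1 ∧ 1 / ((p : ℝ) - 1) ≤ 2 * (1 / (p : ℝ)) := by
      intro p hp
      simp only [pr, mem_filter, mem_Ioc] at hp
      have h2 : (2 : ℝ) ≤ p := by exact_mod_cast hp.2.two_le
      refine ⟨by linarith only [h2], ?_⟩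
      rw [mul_one_div, div_le_div_iff₀ (by linarith only [h2]) (by linarith only [h2])]
      linarith only [h2]
    calc ∏ p ∈ pr z R, (1 + (L : ℝ) / ((p : ℝ) - 1))
        ≤ ∏ p ∈ pr z R, Real.exp ((L : ℝ) / ((p : ℝ) - 1)) := by
          refine prod_le_prod (fun p hp => ?_) (fun p hp => ?_)
          · have := (hgp p hp).1
            positivity
          · rw [add_comm]
            exact Real.add_one_le_exp _
      _ = Real.exp (∑ p ∈ pr z R, (L : ℝ) / ((p : ℝ) - 1)) := by rw [Real.exp_sum]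
      _ ≤ _ := by
          apply Real.exp_le_exp.mpr
          calc ∑ p ∈ pr z R, (L : ℝ) / ((p : ℝ) - 1)
              ≤ ∑ p ∈ pr z R, (2 * s) * (1 / (p : ℝ)) := by
                refine sum_le_sum fun p hp => ?_
                obtain ⟨h1, h2⟩ := hgp p hp
                calc (L : ℝ) / ((p : ℝ) - 1) = L * (1 / ((p : ℝ) - 1)) := by ring
                  _ ≤ s * (2 * (1 / (p : ℝ))) :=
                    mul_le_mul hLs h2 (by positivity) hs0.le
                  _ = _ := by ring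
            _ ≤ ∑ p ∈ pr z (z ^ (2 ^ J)), (2 * s) * (1 / (p : ℝ)) := by
                refine sum_le_sum_of_subset_of_nonneg ?_ (fun p _ _ => by positivity)
                intro p hp
                simp only [pr, mem_filter, mem_Ioc] at hp ⊢
                exact ⟨⟨hp.1.1, hp.1.2.trans hRJ⟩, hp.2⟩
            _ = (2 * s) * ∑ p ∈ pr z (z ^ (2 ^ J)), 1 / (p : ℝ) := by rw [mul_sum]
            _ ≤ (2 * s) * (2 * C * J) :=
                mul_le_mul_of_nonneg_left (te_mert C hC z hz2 J) (by positivity)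
            _ = _ := by ring
  have hprod0 : 0 ≤ ∏ p ∈ pr z R, (1 + (L : ℝ) / ((p : ℝ) - 1)) := by
    refine prod_nonneg fun p hp => ?_
    simp only [pr, mem_filter, mem_Ioc] at hp
    have h2 : (2 : ℝ) ≤ p := by exact_mod_cast hp.2.two_le
    have : (0 : ℝ) < (p : ℝ) - 1 := by linarith only [h2]
    positivity
  have hprod2 : (∏ p ∈ pr z R, (1 + (L : ℝ) / ((p : ℝ) - 1))) ^ 2
      ≤ Real.exp (8 * C * s * J) := by
    calc (∏ p ∈ pr z R, (1 + (L : ℝ) / ((p : ℝ) - 1))) ^ 2
        ≤ (Real.exp (4 * C * s * J)) ^ 2 := pow_le_pow_left₀ hprod0 hprod 2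
      _ = Real.exp (8 * C * s * J) := by
          rw [← Real.exp_nat_mul]
          congr 1
          push_cast
          ring
  -- the logarithm of R
  have hI : ((Nat.log 2 R + 1 : ℕ) : ℝ) ≤ 3 * Real.log x := by
    have hRx : R ≤ x := by
      refine le_trans ?_ hR
      calc R ≤ k * R := Nat.le_mul_of_pos_left R (by omega)
        _ ≤ (k * R) ^ 4 := Nat.le_self_pow (by norm_num) _
    have hR1 : R ≠ 0 := by positivity
    have h1 : 2 ^ (Nat.log 2 R) ≤ R := Nat.pow_log_le_self 2 hR1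
    have h2 : ((2 : ℝ)) ^ (Nat.log 2 R) ≤ x := by exact_mod_cast h1.trans hRx
    have h3 : (Nat.log 2 R : ℝ) * Real.log 2 ≤ Real.log x := by
      rw [← Real.log_pow]
      exact Real.log_le_log (by positivity) h2
    have h5 : (1 / 2 : ℝ) ≤ Real.log 2 := by linarith only [Real.log_two_gt_d9]
    have h6 : (0 : ℝ) ≤ (Nat.log 2 R : ℝ) := by positivity
    have h7 : (Nat.log 2 R : ℝ) * (1 / 2) ≤ Nat.log 2 R * Real.log 2 :=
      mul_le_mul_of_nonneg_left h5 h6
    push_cast
    linarith only [hl1, h3, h7]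
  -- the bracket
  have hzinv : 2 / (z : ℝ) ≤ 2 * Real.exp (-(E : ℝ)) := by
    rw [Real.exp_neg, ← div_eq_mul_inv]
    exact div_le_div_of_nonneg_left (by norm_num) (Real.exp_pos _) hz
  have hxinv : (x : ℝ) ^ (-(1 / 50) : ℝ) ≤ Real.exp (-(E : ℝ)) := by
    rw [Real.rpow_def_of_pos hxpos]
    apply Real.exp_le_exp.mpr
    have h1 : 64 * (E : ℝ) ≤ E * E := mul_le_mul_of_nonneg_right hE64 (by positivity)
    linarith only [hC0, hη0, hs2, hsE, hlx, h1]
  have hbr : 2 / (z : ℝ) + ((Nat.log 2 R + 1 : ℕ) : ℝ) * (x : ℝ) ^ (-(1 / 50) : ℝ)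
      ≤ 5 * Real.exp s * Real.exp (-(E : ℝ)) := by
    have h1 : ((Nat.log 2 R + 1 : ℕ) : ℝ) * (x : ℝ) ^ (-(1 / 50) : ℝ)
        ≤ 3 * Real.log x * Real.exp (-(E : ℝ)) :=
      mul_le_mul hI hxinv (by positivity) (by positivity)
    have h2 : 2 * Real.exp (-(E : ℝ)) ≤ 2 * Real.log x * Real.exp (-(E : ℝ)) := by
      refine mul_le_mul_of_nonneg_right ?_ (Real.exp_pos _).le
      linarith only [hl1]
    have h3 : 5 * Real.log x * Real.exp (-(E : ℝ)) ≤ 5 * Real.exp s * Real.exp (-(E : ℝ)) := by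
      refine mul_le_mul_of_nonneg_right ?_ (Real.exp_pos _).le
      linarith only [hlx2]
    linarith only [hzinv, h1, h2, h3]
  have hlA : Real.log x ^ A ≤ Real.exp (A * s) := by
    rw [Real.exp_nat_mul]
    exact pow_le_pow_left₀ (by linarith only [hl1]) hlx2 A
  have hLe : (L : ℝ) ≤ Real.exp (Real.log s) := by
    rw [Real.exp_log hs0]
    exact hLs
  have h5e : (5 : ℝ) ≤ Real.exp 2 := by
    have h1 : (2.7 : ℝ) ≤ Real.exp 1 := by linarith only [Real.exp_one_gt_d9]
    have h2 : Real.exp 2 = Real.exp 1 * Real.exp 1 := by rw [← Real.exp_add]; norm_num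
    rw [h2]
    nlinarith only [h1]
  have hfin : 8 * C * s * J + Real.log s + A * s + 2 + s - E ≤ -(1 / 2 * E) := by
    rw [← hsq]
    have h1 : 8 * C * s * J ≤ 8 * C * s * (4 * (η * s) + 1) := by
      refine mul_le_mul_of_nonneg_left ?_ (by positivity)
      linarith only [hs1, hJs]
    have h2 : 8 * C * s * (4 * (η * s) + 1) = 32 * (C * η) * s ^ 2 + 8 * C * s := by ring
    have h3 : C * η ≤ 1 / 200 := by
      rw [hη, mul_one_div, div_le_div_iff₀ (by positivity) (by norm_num)]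
      linarith
    have h4 : 32 * (C * η) * s ^ 2 ≤ 32 * (1 / 200) * s ^ 2 := by
      refine mul_le_mul_of_nonneg_right ?_ (by positivity)
      linarith only [h3]
    have h5 : 16 * ((8 * C + 2 * η + A + 1) * s) ≤ s ^ 2 := by
      have := mul_le_mul_of_nonneg_right hs2 hs0.le
      rw [sq]
      linarith only [this]
    have h6 : 8 * 8 ≤ s * s := mul_le_mul hs3 hs3 (by norm_num) hs0.le
    have h7 : Real.log s ≤ η * s := hs1
    have h8 : 16 * (8 * C * s + 2 * (η * s) + A * s + s) ≤ s ^ 2 := by linarith only [h5]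
    have h9 : 0 ≤ η * s := by positivity
    have h10 : 0 ≤ (A : ℝ) * s := by positivity
    have h11 : 0 ≤ C * s := by positivity
    linarith only [hC0, hη0, hs1, hs2, h1, h4, h5, h9, h10, h11]
  calc (∏ p ∈ pr z R, (1 + (L : ℝ) / ((p : ℝ) - 1))) ^ 2 * (L * (x / k * Real.log x ^ A *
        (2 / z + ((Nat.log 2 R + 1 : ℕ) : ℝ) * (x : ℝ) ^ (-(1 / 50) : ℝ))))
      ≤ Real.exp (8 * C * s * J) * (Real.exp (Real.log s) * (x / k * Real.exp (A * s) *
          (5 * Real.exp s * Real.exp (-(E : ℝ))))) := by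
        have hxk : (0 : ℝ) ≤ x / k := by positivity
        gcongr
    _ ≤ Real.exp (8 * C * s * J) * (Real.exp (Real.log s) * (x / k * Real.exp (A * s) *
          (Real.exp 2 * Real.exp s * Real.exp (-(E : ℝ))))) := by
        have hxk : (0 : ℝ) ≤ x / k := by positivity
        gcongr
    _ = Real.exp (8 * C * s * J + Real.log s + A * s + 2 + s - E) * (x / k) := by
        rw [sub_eq_add_neg, Real.exp_add, Real.exp_add, Real.exp_add, Real.exp_add, Real.exp_add]
        ring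
    _ ≤ Real.exp (-(1 / 2 * E)) * (x / k) := by
        refine mul_le_mul_of_nonneg_right (Real.exp_le_exp.mpr hfin) (by positivity)

end Pool.Agent.Helper88.CG
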