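import Pool.Agent.Helper88.CG.Goals
import Pool.Agent.Helper88.RR.VL

/-! # Sizes of the parameters -/

set_option autoImplicit false

open Finset Filter Topology

namespace Pool.Agent.Helper88.CG

open Pool.Agent.Helper88.PP (VV)

theorem vp : StmtVP := by
  obtain ⟨c1, hc1, hVL⟩ := Pool.Agent.Helper88.RR.vl
  obtain ⟨L0, hL0⟩ := exists_nat_gt (max 100 (200 / c1))
  refine ⟨c1 / 64, by positivity, 2 ^ L0, fun E hE => ?_⟩
  set L := Nat.log 2 E with hL
  have hE0 : E ≠ 0 := by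
    have : 0 < 2 ^ L0 := by positivity
    omega
  have hLL : L0 ≤ L := Nat.le_log_of_pow_le (by norm_num) hE
  have hLr : (L0 : ℝ) ≤ L := by exact_mod_cast hLL
  have hL100 : (100 : ℝ) < L := lt_of_lt_of_le (lt_of_le_of_lt (le_max_left _ _) hL0) hLr
  have hL100' : 100 < L := by exact_mod_cast hL100
  have hLc : 200 / c1 < L := lt_of_lt_of_le (lt_of_le_of_lt (le_max_right _ _) hL0) hLr
  have hLc' : 200 < c1 * L := by
    rw [div_lt_iff₀ hc1] at hLc
    linarith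
  have hpow1 : 2 ^ L ≤ E := Nat.pow_log_le_self 2 hE0
  have hpow2 : E < 2 ^ (L + 1) := Nat.lt_pow_succ_log_self (by norm_num) E
  have hqE : qE E = 2 ^ (L / 16) := rfl
  set q := qE E with hq
  have hq0 : 0 < q := by rw [hqE]; positivity
  have hmE : mE E = E / 16 / q ^ 2 := rfl
  set m := mE E with hm
  have hq2 : 0 < q ^ 2 := by positivity
  have h100 : 2 ^ 100 ≤ E := le_trans (Nat.pow_le_pow_right (by norm_num) hL100'.le) hpow1
  have hM : 2 ^ (L - 4) ≤ E / 16 := by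
    rw [Nat.le_div_iff_mul_le (by norm_num)]
    calc 2 ^ (L - 4) * 16 = 2 ^ (L - 4) * 2 ^ 4 := by norm_num
      _ = 2 ^ L := by rw [← pow_add]; congr 1; omega
      _ ≤ E := hpow1
  have hq2p : q ^ 2 = 2 ^ (2 * (L / 16)) := by rw [hqE, ← pow_mul, mul_comm]
  have h1 : 1 ≤ m := by
    rw [hmE, Nat.le_div_iff_mul_le hq2, one_mul, hq2p]
    exact le_trans (Nat.pow_le_pow_right (by norm_num) (by omega)) hM
  have h2 : q ^ 2 * m ≤ E / 16 := by
    rw [hmE]
    exact Nat.mul_div_le _ _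
  have h3 : E / 16 < 2 * q ^ 2 * m := by
    have h4 : E / 16 < q ^ 2 * (m + 1) := by
      rw [hmE]
      exact Nat.lt_mul_div_succ _ hq2
    calc E / 16 < q ^ 2 * (m + 1) := h4
      _ ≤ q ^ 2 * (2 * m) := Nat.mul_le_mul_left _ (by omega)
      _ = 2 * q ^ 2 * m := by ring
  have h5 : (2 * (E / 16 / m + 2)) ^ 6 ≤ E := by
    have h6 : E / 16 / m < 2 * q ^ 2 := by
      rw [Nat.div_lt_iff_lt_mul (by omega)]
      exact h3
    have h7 : 2 * (E / 16 / m + 2) ≤ 8 * q ^ 2 := by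
      have : 1 ≤ q ^ 2 := hq2
      omega
    calc (2 * (E / 16 / m + 2)) ^ 6 ≤ (8 * q ^ 2) ^ 6 := Nat.pow_le_pow_left h7 6
      _ = 2 ^ (18 + 12 * (L / 16)) := by
          rw [hq2p, mul_pow, ← pow_mul, pow_add]
          congr 1
          congr 1
          omega
      _ ≤ 2 ^ L := Nat.pow_le_pow_right (by norm_num) (by omega)
      _ ≤ E := hpow1
  have h8 : E ^ 3 ≤ m ^ 4 := by
    have h9 : E ≤ 32 * q ^ 2 * m := by
      have h10 : E < 16 * (E / 16 + 1) := by omega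
      have h11 : E / 16 + 1 ≤ 2 * q ^ 2 * m := h3
      calc E ≤ 16 * (E / 16 + 1) := h10.le
        _ ≤ 16 * (2 * q ^ 2 * m) := Nat.mul_le_mul_left _ h11
        _ = 32 * q ^ 2 * m := by ring
    have h12 : (32 * q ^ 2) ^ 4 ≤ E := by
      calc (32 * q ^ 2) ^ 4 = 2 ^ (20 + 8 * (L / 16)) := by
            rw [hq2p, mul_pow, ← pow_mul, pow_add]
            congr 1
            congr 1
            omega
        _ ≤ 2 ^ L := Nat.pow_le_pow_right (by norm_num) (by omega)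
        _ ≤ E := hpow1
    have h13 : E * E ^ 3 ≤ E * m ^ 4 := by
      calc E * E ^ 3 = E ^ 4 := by ring
        _ ≤ (32 * q ^ 2 * m) ^ 4 := Nat.pow_le_pow_left h9 4
        _ = (32 * q ^ 2) ^ 4 * m ^ 4 := by rw [mul_pow]
        _ ≤ E * m ^ 4 := Nat.mul_le_mul_right _ h12
    exact Nat.le_of_mul_le_mul_left h13 (by omega)
  refine ⟨h1, h2, by omega, h5, h8, fun z hz => ?_⟩
  have hv := hVL (L / 16) m z h1 hz
  rw [← hqE] at hv
  have hEpos : (0 : ℝ) < E := by
    have : 0 < E := Nat.pos_of_ne_zero hE0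
    exact_mod_cast this
  have hlogE : Real.log E ≤ L + 1 := by
    have h1 : (E : ℝ) ≤ 2 ^ (L + 1) := by exact_mod_cast hpow2.le
    have h2 : Real.log E ≤ Real.log ((2 : ℝ) ^ (L + 1)) := Real.log_le_log hEpos h1
    rw [Real.log_pow] at h2
    have h3 := Real.log_two_lt_d9
    have h4 : (0 : ℝ) ≤ ((L + 1 : ℕ) : ℝ) := Nat.cast_nonneg _
    push_cast at h2 h4
    nlinarith
  have hd : ((L : ℝ) - 15) / 16 ≤ ((L / 16 : ℕ) : ℝ) := by
    have : L ≤ 16 * (L / 16) + 15 := by omega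
    have h3 : (L : ℝ) ≤ 16 * ((L / 16 : ℕ) : ℝ) + 15 := by exact_mod_cast this
    linarith
  have hd2 := mul_le_mul_of_nonneg_left hd hc1.le
  have hd3 : c1 * (L + 1) / 64 + 1 ≤ c1 * (((L : ℝ) - 15) / 16) - 1 := by nlinarith
  have hd4 : c1 / 64 * Real.log E ≤ c1 * (L + 1) / 64 := by
    have := mul_le_mul_of_nonneg_left hlogE hc1.le
    linarith
  have hd5 : 0 ≤ c1 * ((L : ℝ) + 1) / 64 := by positivity
  constructor
  · linarith
  · linarith

end Pool.Agent.Helper88.CG
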