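import Pool.Agent.Helper13.CG.VA
import Pool.Agent.Helper9.CG.VK
import Pool.Agent.Helper2.CG.BI
import Pool.Agent.Helper5.CG.TF
import Pool.Agent.Helper55.CG.BW
import Pool.Agent.Helper49.CG.VI
import Pool.Agent.Helper37.CG.TA
import Pool.Agent.Helper25.CG.T1
import Pool.Agent.Helper58.CG.RB
import Pool.Agent.Helper88.CG.TE
import Pool.Agent.Helper54.CG.EB
import Pool.Agent.Helper53.CG.ER
import Pool.Agent.Helper19.CG.TG
import Pool.Agent.Helper48.CG.BT
import Pool.Agent.Helper40.CG.CO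
import Pool.Agent.Helper88.CG.VP
import Pool.Agent.Helper88.CG.KQ
import Pool.Agent.Helper74.CG.CM
import Pool.Agent.Helper67.CG.WT
import Pool.Agent.Helper42.CG.LB
import Pool.Agent.Helper61.CG.A1
import Pool.Agent.Helper5.CG.A3
import Pool.Agent.Helper90.CG.A4
import Pool.Agent.Helper80.CG.F2
import Pool.Agent.Helper25.CG.CG
import Pool.Agent.Helper88.GM.MainA

set_option autoImplicit false

namespace Pool.Agent.Helper88.CG

theorem mBI : StmtBI := Pool.Agent.Helper2.CG.bi (Pool.Agent.Helper9.CG.vk Pool.Agent.Helper13.CG.va)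

theorem mRB : StmtRB :=
  Pool.Agent.Helper58.CG.rb (Pool.Agent.Helper55.CG.bw mBI Pool.Agent.Helper5.CG.tf)
    Pool.Agent.Helper49.CG.vi Pool.Agent.Helper37.CG.ta Pool.Agent.Helper25.CG.t1

theorem mER : StmtER := Pool.Agent.Helper53.CG.er Pool.Agent.Helper54.CG.eb (te mRB)

theorem mTG : StmtTG := Pool.Agent.Helper19.CG.tg

theorem mBT : StmtBT := Pool.Agent.Helper48.CG.bt mTG

theorem mCO : StmtCO := Pool.Agent.Helper40.CG.co mTG

theorem mVP : StmtVP := vp

theorem mLB : StmtLB :=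
  Pool.Agent.Helper42.CG.lb Pool.Agent.Helper67.CG.wt mER mCO (Pool.Agent.Helper74.CG.cm mVP) mVP

theorem mKQ : StmtKQ := kq mVP

theorem mS1 : Pool.Agent.Helper88.GM.StmtS1 :=
  Pool.Agent.Helper32.GM.s1 Pool.Agent.Helper88.GM.tsMain Pool.Agent.Helper31.GM.gw

end Pool.Agent.Helper88.CG
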