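import Pool.Agent.Helper88.CG.MainA
import Pool.Agent.Helper72.CG.PB
import Pool.Agent.Helper87.CG.F1

set_option autoImplicit false

namespace Pool.Agent.Helper88.CG

theorem mPB : StmtPB := Pool.Agent.Helper72.CG.pb mTG mVP

theorem mF1 : StmtF1 :=
  Pool.Agent.Helper87.CG.f1 mLB mPB mBT mKQ Pool.Agent.Helper61.CG.a1 Pool.Agent.Helper5.CG.a3
    Pool.Agent.Helper90.CG.a4 mS1

theorem mCG : StmtCG := Pool.Agent.Helper25.CG.cg mF1 Pool.Agent.Helper80.CG.f2

end Pool.Agent.Helper88.CG
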