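import Pool.Agent.Helper88.GM.Goals

/-!
# Chains of large gaps between primes: statements

Main theorem (`StmtCG`): there is `c > 0` such that for every `k ≥ 1` and all large `x` there are
`k` consecutive prime gaps up to `x`, all of them `≥ (c / k^2) log x log log x`.

Structure.  We use the weights `WB` of `RR`, for the integers `n ∈ (x/32, x]` in a class `b` modulo
`Q = QQ x` (the product of the primes up to `log x / 20`), on a window of length `y`.  The window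
consists of `M` blocks of length `l` (about a small constant times `log x`), where primes are
allowed, separated by intervals of length `U`, where the primes are killed.  The weight is
concentrated on the `n` for which there are no primes in the killed intervals; the new point is a
lower bound for the number of primes in the blocks under the weight (`StmtLB`).  It is based on
`StmtRB`: for every modulus `k` the primes in the classes modulo `k p`, `p` a large prime, are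
distributed like the primes in the class modulo `k`, on average over `p` (bilinear forms, large
sieve for prime moduli).  No information about the primes modulo `k` is needed.
-/

set_option autoImplicit false

open Finset Filter Topology

open scoped Classical

namespace Pool.Agent.Helper88.CG

open Pool.Agent.Helper88.PP (pr Rg om Sf SS uu vv ee LA VV QQ cost)
open Pool.Agent.Helper88.RR (gg ab TB WB nz DB VM)
open Pool.Agent.Helper88.GM (NI XI gB Sr In)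

/-! ## Part I: primes in arithmetic progressions, relative to a modulus -/

/-- a tent in `log n`, supported in `(x/16, x)`, `1` at `x/4` -/
noncomputable def tw (x n : ℕ) : ℝ := max 0 (1 - |Real.log (4 * n / x)| / Real.log 4)

/-- the weight at the prime `n`; `0 ≤ pw x n ≤ 1` -/
noncomputable def pw (x n : ℕ) : ℝ := if n.Prime then tw x n * (Real.log n / Real.log x) else 0

/-- the weighted number of primes in the class `a` modulo `q` -/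
noncomputable def th (x q a : ℕ) : ℝ := ∑ n ∈ (Icc 1 x).filter (fun n => n ≡ a [MOD q]), pw x n

/-- the primes in `(P, 2P]` which do not divide `k` -/
noncomputable def prk (k P : ℕ) : Finset ℕ := (Ioc P (2 * P)).filter (fun p => p.Prime ∧ ¬ p ∣ k)

/-- the class `a` modulo `k p`, minus its share of the class modulo `k` -/
noncomputable def dl (k p a n : ℕ) : ℝ :=
  (if n ≡ a [MOD k * p] then 1 else 0) -
    (if n ≡ a [MOD k] ∧ ¬ p ∣ n then 1 else 0) / ((p : ℝ) - 1)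

/-- Large sieve for prime moduli, in the form of variances, with an additional logarithm.
Proof.  With `S(α) = ∑ f(n) e(n α)`, Parseval modulo `p` gives
`∑_c (Z(p,c) - Z/p)² = (1/p) ∑_{a=1}^{p-1} |S(a/p)|²`.  The fractions `a/p`, `P < p ≤ 2P`, are
`1/(4P²)`-spaced modulo 1.  By duality (or directly: for complex `c_r`, expand
`∑_n |∑_r c_r e(n α_r)|²`, bound the geometric sums by `min(N, 1/(2‖α_r - α_s‖))` and
`|c_r c_s| ≤ (|c_r|² + |c_s|²)/2`) `∑_r |S(α_r)|² ≤ (N + C P² (1 + log P)) ∑ f²`. -/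
def StmtVA : Prop := ∃ C : ℝ, 0 < C ∧ ∀ (P N M : ℕ) (f : ℕ → ℝ), 1 ≤ P →
  ∑ p ∈ (Ioc P (2 * P)).filter Nat.Prime, ∑ c ∈ range p,
    ((∑ n ∈ (Ioc M (M + N)).filter (fun n => n % p = c), f n) -
      (∑ n ∈ Ioc M (M + N), f n) / p) ^ 2
  ≤ C / P * (N + P ^ 2 * (1 + Real.log P)) * ∑ n ∈ Ioc M (M + N), f n ^ 2

/-- The same for the variance of the classes modulo `k p` inside the classes modulo `k`.
Proof.  Apply `StmtVA` in each class modulo `k`: `n = c₀ + k ν`, with `ν` in an interval of at most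
`N/k + 1` integers; for `p ∤ k` the classes of `n` modulo `k p` inside `c₀` modulo `k` correspond
to the classes of `ν` modulo `p`. -/
def StmtVK : Prop := ∃ C : ℝ, 0 < C ∧ ∀ (k P N M : ℕ) (f : ℕ → ℝ), 1 ≤ k → 1 ≤ P →
  ∑ p ∈ prk k P, ∑ c ∈ range (k * p),
    ((∑ n ∈ (Ioc M (M + N)).filter (fun n => n % (k * p) = c), f n) -
      (∑ n ∈ (Ioc M (M + N)).filter (fun n => n % k = c % k), f n) / p) ^ 2
  ≤ C / P * (N / k + 1 + P ^ 2 * (1 + Real.log P)) * ∑ n ∈ Ioc M (M + N), f n ^ 2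

/-- Bilinear forms.
Proof.  For a unit `c` modulo `k p` let `A(c) = ∑_{m ≡ c (k p)} α_m` and `A'(c) = A(c)` minus the
mean of `A` over the `p - 1` units modulo `k p` which are `≡ c` modulo `k`; similarly `B'`.  Then
`∑ α_m β_n dl k p a (m n) = ∑_c A'(c) B'(a / c)` (sum over the units modulo `k p`; the cross terms
vanish), which is at most `‖A'‖₂ ‖B'‖₂`.  The mean minimises the variance, so
`‖A'‖₂²` is at most the sum in `StmtVK`.  Cauchy-Schwarz over `p`. -/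
def StmtBI : Prop := ∃ C : ℝ, 0 < C ∧ ∀ (k P M1 N1 M2 N2 : ℕ) (f g : ℕ → ℝ) (a : ℕ → ℕ),
  1 ≤ k → 1 ≤ P → (∀ p ∈ prk k P, Nat.Coprime (a p) (k * p)) →
  ∑ p ∈ prk k P, |∑ m ∈ Ioc M1 (M1 + N1), ∑ n ∈ Ioc M2 (M2 + N2),
      f m * g n * dl k p (a p) (m * n)|
    ≤ C / P * √((N1 / k + 1 + P ^ 2 * (1 + Real.log P)) * (N2 / k + 1 + P ^ 2 * (1 + Real.log P)) *
        ((∑ m ∈ Ioc M1 (M1 + N1), f m ^ 2) * ∑ n ∈ Ioc M2 (M2 + N2), g n ^ 2))

/-- The Fourier series of the tent.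
Proof.  For `x ∈ [0,1]`, `∑_{n ≥ 1} cos(2πnx)/n² = π²(x² - x + 1/6)` (Mathlib,
`hasSum_one_div_nat_pow_mul_cos`); take the second difference at `u + h`, `u - h`, `u`
(of the periodic function): `B(u+h) + B(u-h) - 2B(u) = 2h² - 2 max(0, h - |u|)`. -/
def StmtTF : Prop := ∀ h u : ℝ, 0 < h → h ≤ 1 / 2 → |u| ≤ 1 / 2 →
  HasSum (fun ν : ℕ => (1 - Real.cos (2 * Real.pi * ((ν : ℝ) + 1) * h)) /
      (h * Real.pi ^ 2 * ((ν : ℝ) + 1) ^ 2) * Real.cos (2 * Real.pi * ((ν : ℝ) + 1) * u))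
    (max 0 (1 - |u| / h) - h)

/-- Bilinear forms with the tent weight.
Proof.  `tw x (m n) = max 0 (1 - |u|/h)` with `h = log 4/(4 log x)`,
`u = log(4 m n/x)/(4 log x)`, `|u| ≤ 1/2`; expand by `StmtTF` (`∑ |coefficients| ≤ C log x`),
`cos(A_m + B_n) = cos A_m cos B_n - sin A_m sin B_n`, and apply `StmtBI` to each term. -/
def StmtBW : Prop := ∃ C : ℝ, 0 < C ∧ ∃ x0 : ℕ, ∀ (x k P M1 M2 : ℕ) (f g : ℕ → ℝ) (a : ℕ → ℕ),
  x0 ≤ x → 1 ≤ k → 1 ≤ P → 1 ≤ M1 → 1 ≤ M2 → M1 * M2 ≤ x →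
  (∀ p ∈ prk k P, Nat.Coprime (a p) (k * p)) →
  ∑ p ∈ prk k P, |∑ m ∈ Ioc M1 (2 * M1), ∑ n ∈ Ioc M2 (2 * M2),
      f m * g n * (tw x (m * n) * dl k p (a p) (m * n))|
    ≤ C * Real.log x / P *
      √((M1 / k + 1 + P ^ 2 * (1 + Real.log P)) * (M2 / k + 1 + P ^ 2 * (1 + Real.log P)) *
        ((∑ m ∈ Ioc M1 (2 * M1), f m ^ 2) * ∑ n ∈ Ioc M2 (2 * M2), g n ^ 2))

/-- Vaughan's identity:
`Λ = Λ_{≤U} + μ_{≤V} * log - μ_{≤V} * Λ_{≤U} * 1 + Λ_{>U} * (1 * μ_{>V})`, at `n > U`. -/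
def StmtVI : Prop := ∀ U V n : ℕ, 1 ≤ V → U < n →
  ArithmeticFunction.vonMangoldt n =
    (∑ b ∈ n.divisors.filter (fun b => b ≤ V),
      (ArithmeticFunction.moebius b : ℝ) * Real.log ((n / b : ℕ) : ℝ))
    - (∑ b ∈ n.divisors.filter (fun b => b ≤ V),
        ∑ c ∈ (n / b).divisors.filter (fun c => c ≤ U),
          (ArithmeticFunction.moebius b : ℝ) * ArithmeticFunction.vonMangoldt c)
    + ∑ c ∈ n.divisors.filter (fun c => U < c), ArithmeticFunction.vonMangoldt c *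
        ∑ b ∈ (n / c).divisors.filter (fun b => V < b), (ArithmeticFunction.moebius b : ℝ)

/-- The second moment of the divisor function. -/
def StmtTA : Prop := ∃ C : ℝ, 0 < C ∧ ∀ N : ℕ,
  ∑ n ∈ Icc 1 N, (n.divisors.card : ℝ) ^ 2 ≤ C * N * (1 + Real.log N) ^ 3

/-- Type I sums.
Proof.  If `b` is not coprime to `k p` all terms vanish.  Otherwise the sum is the mean over the
`p - 1` unit classes `c'` modulo `k p` above the class modulo `k` of `S(c) - S(c')`, `S(c)` the sum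
of `F(d)` over `d ≡ c` modulo `k p`, `F(d) = tw x (b d)` or `log d · tw x (b d)`; `F` increases and
then decreases (or: has total variation `≤ 2 sup F`), so `|S(c) - S(c')| ≤ 2 sup F`. -/
def StmtT1 : Prop := ∃ C : ℝ, 0 < C ∧ ∀ (x k p b a : ℕ), 16 ≤ x → 1 ≤ k → p.Prime → ¬ p ∣ k →
  1 ≤ b → Nat.Coprime a (k * p) →
  |∑ d ∈ Icc 1 x, tw x (b * d) * dl k p a (b * d)| ≤ C ∧
  |∑ d ∈ Icc 1 x, Real.log d * (tw x (b * d) * dl k p a (b * d))| ≤ C * Real.log x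

/-- The primes modulo `k p`, relative to the primes modulo `k`, on average over the primes
`p ∈ (P, 2P]`.
Proof.  `(k P)^4 ≤ x`.  Put `U = V = ⌊x^(1/3)⌋` in `StmtVI`.  A prime `n` with `tw x n ≠ 0` is
`> x/16`, so it is not divisible by `p ≤ 2P ≤ 2 x^(1/4)`, and
`th x (k p) a - th x k a/(p-1) = (1/log x) ∑_{n prime} log n · tw x n · dl k p a n`; the prime
powers contribute `O(x^(1/2) log^2 x)` for each `p`, together `P x^(1/2) ..`, fine.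
Type I: the first two sums in `StmtVI`, written as sums over `b ≤ V` and over `b c ≤ U V`
(coefficients `≤ log x`), are `O(x^(2/3) log² x)` for each `p` by `StmtT1`; together
`P x^(2/3) log² x ≤ (x/k) x^(-1/12) log² x`.
Type II: split `c > U` and `m = n/c > V` into dyadic intervals, `M1 M2 ≤ x`, so
`M1, M2 ≤ 2 x^(2/3)`, `∑ Λ² ≤ C M1 log² x`, `|∑_{b | m, b > V} μ(b)| ≤ τ(m)` (`StmtTA`);
`StmtBW` gives
`(1/P) (√x/k + √(x^(2/3)/k) P + P²) √x (log x)^C ≤ (x/k) (log x)^C (1/P + x^(-1/24) + x^(-1/4))`. -/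
def StmtRB : Prop := ∃ A x0 : ℕ, ∀ x k P : ℕ, x0 ≤ x → 1 ≤ k → 1 ≤ P → (k * P) ^ 4 ≤ x →
  ∀ a : ℕ → ℕ, (∀ p ∈ prk k P, Nat.Coprime (a p) (k * p)) →
  ∑ p ∈ prk k P, |th x (k * p) (a p) - th x k (a p) / ((p : ℝ) - 1)|
    ≤ x / k * Real.log x ^ A * (1 / P + (x : ℝ) ^ (-(1 / 50) : ℝ))

/-- The same for squarefree `D` with all prime factors `> z`, with weights.
Proof.  For `D = p₁ < .. < p_s` telescope:
`th(k D) - th(k)/φ(D) = ∑_t [th(k p₁..p_t) - th(k p₁..p_{t-1})/(p_t - 1)]/φ(p_{t+1}..p_s)`.  So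
`D = D' p D''`; for fixed `D', D''` and `p ∈ (P, 2P]`, `P = z 2^i`, use `StmtRB` with the modulus
`k D'`: total at most
`(∑_{D''} L^ω/φ(D'')) (∑_{D'} L^ω/D') L (x/k) (log x)^(A+1) (2/z + x^(-1/50))`, and
`∑_{D ≤ x, z-rough} L^ω(D)/φ(D) ≤ ∏_{z < p ≤ x} (1 + L/(p-1)) ≤ exp(C L log(2 + log x))`
with `L ≤ √E`, `log log x ≤ E^(1/3)`, `z ≥ exp E`, `x ≥ exp(E²)`. -/
def StmtTE : Prop := ∃ c : ℝ, 0 < c ∧ ∃ E0 : ℕ, ∀ E z x y : ℕ, E0 ≤ E → Sr E z x y →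
  ∀ k L : ℕ, 1 ≤ k → (∀ p : ℕ, p.Prime → p ∣ k → p ≤ z) → L ^ 2 ≤ E →
  (k * z ^ (2 * (E / 16))) ^ 4 ≤ x →
  ∀ a : ℕ → ℕ, (∀ D ∈ SS z (z ^ (2 * (E / 16)) + 1), Nat.Coprime (a D) (k * D)) →
  ∑ D ∈ SS z (z ^ (2 * (E / 16)) + 1), (L : ℝ) ^ D.primeFactors.card *
      |th x (k * D) (a D) - th x k (a D) / (Nat.totient D : ℝ)|
    ≤ Real.exp (-(c * E)) * (x / k)

/-! ## Part II: second moments with weights at the primes -/

/-- `1` if `d = 0`, otherwise the indicator of `d ∣ m` and no prime factor in `(y, z]` -/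
noncomputable def ic (y z d m : ℕ) : ℝ := if d = 0 then 1 else if d ∣ m ∧ Rg y z m then 1 else 0

/-- the divisor labels of product at most `D` with at most `K` nonzero values -/
noncomputable def DS {ι : Type} [Fintype ι] [DecidableEq ι] (z D K : ℕ) : Finset (ι → ℕ) :=
  (Fintype.piFinset (fun _ : ι => insert 0 (SS z (D + 1)))).filter
    (fun d => ∏ i, max 1 (d i) ≤ D ∧ nz d ≤ K)

/-- `0` or `1` -/
def sg (d : ℕ) : ℕ := if d = 0 then 0 else 1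

/-- The second moment of a function given by labels, with arbitrary weights `w` and an arbitrary
main term `G`.
Proof.  As `Pool/Agent/Helper96/GM/TR.lean` (the same algebra): expand
`vv y z r m = ∑_{d | r} μ(d) d · ic y z d m`; the main terms add up to the second sum on the left
side exactly; the error is
`∑_{r,s} |c_r c_s| ∑_{d | r, e | s} ∏ d_i e_i |cnt(lcm(d,e)) - main(lcm(d,e))|`; for fixed `d` the
sum over `r` of `∏ al i (r i) · d i` is at most `∏_{d_i ≠ 0} C`; and a given value `l` of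
`lcm(d_i, e_i)` comes from at most `3^ω(l) + 2` pairs `(d_i, e_i)` (including `d_i = 0` or
`e_i = 0`). -/
def StmtWT : Prop := ∀ (ι : Type) [Fintype ι] [DecidableEq ι] (pt : ι → ℕ) (y z X D K : ℕ)
  (N : Finset ℕ) (w : ℕ → ℝ) (C : ℝ) (G : (ι → ℕ) → ℝ) (T : Finset (ι → ℕ)) (c : (ι → ℕ) → ℝ)
  (al : ι → ℕ → ℝ), 1 ≤ C →
  (∀ r ∈ T, ∀ i, r i = 0 ∨ r i ∈ SS z X) →
  (∀ r ∈ T, ∀ s ∈ T, ∀ i, r i = 1 → s i ≠ 0) →
  (∀ r ∈ T, (∏ i, max 1 (r i)) ^ 2 ≤ D) →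
  (∀ r ∈ T, ∀ s ∈ T, (univ.filter (fun i => r i ≠ 0 ∨ s i ≠ 0)).card ≤ K) →
  (∀ i r, 0 ≤ al i r) → (∀ i, al i 0 ≤ 1) → (∀ r ∈ T, |c r| ≤ ∏ i, al i (r i)) →
  (∀ i, ∀ d ∈ SS z X, (d : ℝ) * ∑ r ∈ (SS z X).filter (fun r => d ∣ r), al i r ≤ C) →
  |∑ n ∈ N, w n * (∑ r ∈ T, c r * ∏ i, vv y z (r i) (n + pt i)) ^ 2
      - ∑ r ∈ T, c r ^ 2 * (G (fun i => sg (r i)) *
          ∏ i, (if r i = 0 then 1 else (Nat.totient (r i) : ℝ)))|
    ≤ ∑ d ∈ (DS z D K : Finset (ι → ℕ)),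
        (∏ i, (if d i = 0 then 1 else 3 * C ^ 2 * 3 ^ (d i).primeFactors.card)) *
        |∑ n ∈ N, w n * ∏ i, ic y z (d i) (n + pt i)
          - G (fun i => sg (d i)) * ∏ i, (if d i = 0 then 1 else 1 / (d i : ℝ))|

/-- the weighted number of the primes `n + j`, `n ∈ N`, with the conditions given by `d` -/
noncomputable def CN (x y z j : ℕ) (N : Finset ℕ) {P : Finset ℕ} (d : P → ℕ) : ℝ :=
  ∑ n ∈ N, pw x (n + j) * ∏ i : P, ic y z (d i) (n + (i : ℕ))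

/-- The conditions given by `d` reduced to progressions.
Proof.  Let `D = ∏ max 1 (d i)`, `B` the set of the `i` with `d i ≠ 0`, `k = #B`.  For a prime
`p ∈ (y, z]` at most one `i ∈ B` has `p ∣ n + i` (the points are in `[1, y]`).  Bonferroni
(`Pool/Agent/Helper6/RR/BO.lean`, `alt_bound`): `∏_{i ∈ B} [n + i rough]` differs from
`∑_{A ⊆ pr y z, #A ≤ r} (-1)^#A ∏_{p ∈ A} [∃ i ∈ B, p ∣ n + i]` by at most the terms with
`#A = r + 1`.  For given `A` and `f : A → B` the conditions `n ≡ b (Q)`, `p ∣ n + f p`,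
`d i ∣ n + i` mean that `n + j` is in a class `a` modulo `Q (∏ A) D`, prime to the modulus if
`n + j` can be a prime (`|j - i| < y`; if `gcd(b + j, Q) > 1` both sides of the difference are
zero).  The left side is at most the sum over `A, f` of
`|th x (Q ∏A D) a - th x (Q ∏A) a/φ(D)|` plus the error terms.  For each `A` take the worst `f`.
The error terms: `#{n ∈ NI (x/32) x Q b : ..} ≤ XI/(D ∏A) + 1`. -/
def StmtEB : Prop := ∃ x0 : ℕ, ∀ x y z b j r : ℕ, x0 ≤ x → Real.log x ≤ y →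
  (y : ℝ) ≤ Real.log x ^ 2 → y ≤ z → b < QQ x → j ∈ Icc 1 y →
  ∀ P : Finset ℕ, P ⊆ Icc 1 y → j ∉ P → ∀ d : P → ℕ, (∀ i, d i = 0 ∨ Sf z (d i)) →
  (∀ i i', i ≠ i' → d i ≠ 0 → d i' ≠ 0 → Nat.Coprime (d i) (d i')) →
  QQ x * z ^ r * (∏ i, max 1 (d i)) ^ 2 ≤ x / 32 →
  ∃ a : Finset ℕ → ℕ,
    (∀ A ⊆ pr y z, Nat.Coprime (a A) (QQ x * (∏ p ∈ A, p) * ∏ i, max 1 (d i))) ∧
    |CN x y z j (NI (x / 32) x (QQ x) b) d
        - CN x y z j (NI (x / 32) x (QQ x) b) (fun i => sg (d i)) /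
          (Nat.totient (∏ i, max 1 (d i)) : ℝ)|
      ≤ ∑ A ∈ (pr y z).powerset.filter (fun A => A.card ≤ r), (nz d : ℝ) ^ A.card *
          |th x (QQ x * (∏ p ∈ A, p) * ∏ i, max 1 (d i)) (a A)
            - th x (QQ x * ∏ p ∈ A, p) (a A) / (Nat.totient (∏ i, max 1 (d i)) : ℝ)|
        + 2 * XI (x / 32) x (QQ x) / (Nat.totient (∏ i, max 1 (d i)) : ℝ) *
            (((nz d : ℝ) * ∑ p ∈ pr y z, 1 / (p : ℝ)) ^ (r + 1) / (r + 1).factorial)
        + 2 * ((nz d : ℝ) * z) ^ (r + 1)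

/-- The error term of `StmtWT` for the weights `pw x (n + j)`.
Proof.  Not pairwise coprime `d`: `CN d = 0` (a prime `> z ≥ y` cannot divide `n + i` and
`n + i'`), and `CN (sg d) ≤ XI · 2`; the sum over these `d` of the weights over `∏ d_i` is at most
`exp(C K log E')/z`.  Coprime `d`: replace `∏ 1/d_i` by `1/φ(D)` (relative error `≤ 2 ω(D)/z`), use
`StmtEB` with `r = E/32`, and group the `d` by `D = ∏ max 1 (d i)` and by the support (at most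
`(y+1)^K` supports, at most `K^ω(D)` label functions for given `D` and support; take the worst `a`):
`StmtTE` with `k = Q ∏A` (`Q^4 ≤ x^(0.28)`, `(∏A)^4 ≤ x^(1/8)`, `z^(8(E/16)) ≤ x^(1/2)`),
`L = 3K`, and `∑_A K^#A/∏A ≤ exp(K (1 + log log x))`. -/
def StmtER : Prop := ∀ C : ℝ, 1 ≤ C → ∃ c : ℝ, 0 < c ∧ ∃ E0 : ℕ, ∀ E z x y : ℕ, E0 ≤ E →
  Sr E z x y → ∀ b : ℕ, b < QQ x → ∀ K : ℕ, K ^ 3 ≤ E → ∀ P : Finset ℕ, P ⊆ Icc 1 y →
  ∀ j ∈ Icc 1 y, j ∉ P →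
  ∑ d ∈ (DS z (z ^ (2 * (E / 16))) K : Finset (P → ℕ)),
      (∏ i, (if d i = 0 then 1 else 3 * C ^ 2 * 3 ^ (d i).primeFactors.card)) *
      |CN x y z j (NI (x / 32) x (QQ x) b) d
        - CN x y z j (NI (x / 32) x (QQ x) b) (fun i => sg (d i)) *
          ∏ i, (if d i = 0 then 1 else 1 / (d i : ℝ))|
    ≤ Real.exp (-(c * E)) * XI (x / 32) x (QQ x)

/-- The second moment, as `GM.StmtTS`, with up to two points `F` (labels up to `z^(E/32)`) and up to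
two points `G` (label `1`: roughness only).
Proof.  As `Pool/Agent/Helper49/GM/TS.lean`; all points are in `[1, y]`, so `gB = gg` (`StmtGW`). -/
def StmtTG : Prop := ∃ c : ℝ, 0 < c ∧ ∃ E0 : ℕ, ∀ E z x y : ℕ, E0 ≤ E → Sr E z x y →
  ∀ u v Q b : ℕ, In x u v Q b → ∀ m q K : ℕ, 1 ≤ m → q * m ≤ E / 16 → 1 ≤ VV z m (q * m) →
  K ^ 3 ≤ E → ∀ P : Finset ℕ, P ⊆ Icc 1 y → (P.card : ℝ) * om y z ≤ (E : ℝ) ^ 2 →
  ∀ (T : Finset (P → ℕ)) (a : (P → ℕ) → ℝ) (F G : Finset P), F.card ≤ 2 → G.card ≤ 2 →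
  Disjoint F G →
  (∀ r ∈ T, ∀ i, i ∉ F → i ∉ G → (r i = 0 ∨ r i ∈ LA z m (q * m))) →
  (∀ r ∈ T, ∀ i ∈ F, r i ∈ SS z (z ^ (E / 32))) →
  (∀ r ∈ T, ∀ i ∈ G, r i = 1) →
  (∀ r ∈ T, nz r ≤ K) →
  (∀ r ∈ T, ∏ i, max 1 (r i) ≤ z ^ (2 * (E / 16))) →
  (∀ r ∈ T, |a r| ≤ ∏ i, (if i ∈ F then 1 / (VM (E / 32) z * (Nat.totient (r i) : ℝ)) else
    if i ∈ G then 1 else if r i = 0 then 1 else ab m q z (r i))) →
  |∑ n ∈ NI u v Q b, (∑ r ∈ T, a r * ∏ i, vv y z (r i) (n + (i : ℕ))) ^ 2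
      - XI u v Q * ∑ r ∈ T, a r ^ 2 *
        (gg y z (nz r) * ∏ i, (if r i = 0 then 1 else (Nat.totient (r i) : ℝ)))|
    ≤ Real.exp (-(c * E)) * XI u v Q

/-- Upper bound for the number of primes.
Proof.  `StmtTG` with `P = F = {j}`, `T` all labels in `SS z (z^(E/32))`,
`a r = 1/(VM φ(r))`: at a prime `n + j` the function is `1`; the main term is
`XI om/VM`, and `VM (E/32) z ≥ c E` (`Pool.Agent.Helper24.PP.ma`), `om ≥ c E/log x`. -/
def StmtBT : Prop := ∃ C : ℝ, 0 < C ∧ ∃ E0 : ℕ, ∀ E z x y : ℕ, E0 ≤ E → Sr E z x y →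
  ∀ b : ℕ, b < QQ x → ∀ j ∈ Icc 1 y,
  (((NI (x / 32) x (QQ x) b).filter (fun n => (n + j).Prime)).card : ℝ)
    ≤ C * (XI (x / 32) x (QQ x) * (om y z / E))

/-- The number of rough points is concentrated, also for prime `n + j`.
Proof.  Majorise the primes by the square of the function of `StmtBT`; expand
`(∑_{i ∈ P} [n + i rough] - μ)²`, `μ = #P · om`, and use `StmtTG` with `F = {j}` and
`G = {i, i'}`, `{i}` or empty: the sum is at most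
`(XI/VM) (N(N-1) g₃ + N(1 - 2μ) g₂ + μ² g₁) + exp(-cE) (..)`, `N = #P`, `g_k = gg y z k`,
`g₃ ≤ om³`, `om² (1 - 4/y) ≤ g₂ ≤ om²`, `μ ≤ y`. -/
def StmtCO : Prop := ∃ C : ℝ, 0 < C ∧ ∃ E0 : ℕ, ∀ E z x y : ℕ, E0 ≤ E → Sr E z x y →
  ∀ b : ℕ, b < QQ x → ∀ P : Finset ℕ, P ⊆ Icc 1 y → (P.card : ℝ) * om y z ≤ (E : ℝ) ^ 2 / 2 →
  ∀ j ∈ Icc 1 y, j ∉ P →
  ∑ n ∈ (NI (x / 32) x (QQ x) b).filter (fun n => (n + j).Prime),
      (((P.filter (fun h => Rg y z (n + h))).card : ℝ) - P.card * om y z) ^ 2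
    ≤ C * (XI (x / 32) x (QQ x) * (om y z / E)) * (P.card * om y z + 1)

/-! ### the parameters -/

/-- the ratio of the ends of the range of the labels, about `E^(1/16)` -/
def qE (E : ℕ) : ℕ := 2 ^ (Nat.log 2 E / 16)

/-- the lower end of the range of the labels, about `E^(7/8)/16` -/
def mE (E : ℕ) : ℕ := E / 16 / qE E ^ 2

/-- the weight -/
noncomputable def Wt (E z y : ℕ) (P : Finset ℕ) (n : ℕ) : ℝ :=
  WB (mE E) (qE E) (E / 16) z y P n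

/-- its mean square -/
noncomputable def Dt (E z y : ℕ) (P : Finset ℕ) : ℝ := DB (mE E) (qE E) (E / 16) z y P

/-- Sizes of the parameters; the last part from `Pool.Agent.Helper88.RR.vl`. -/
def StmtVP : Prop := ∃ c : ℝ, 0 < c ∧ ∃ E0 : ℕ, ∀ E : ℕ, E0 ≤ E →
  1 ≤ mE E ∧ qE E ^ 2 * mE E ≤ E / 16 ∧ 2 ≤ E / 16 ∧ (2 * (E / 16 / mE E + 2)) ^ 6 ≤ E ∧
  E ^ 3 ≤ mE E ^ 4 ∧ ∀ z : ℕ, 2 ≤ z →
    1 ≤ VV z (mE E) (qE E * mE E) ∧ c * Real.log E ≤ VV z (mE E) (qE E * mE E)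

/-- The primes at the points of `P` are killed by the weight.
Proof.  As `Pool/Agent/Helper88/GM/KI.lean`: `StmtPW` (at a prime the weight is `GB`), `StmtGT`, and
`StmtRA` with `j` about `qE E / 2` (label costs `≤ qE E * mE E ≤ (E/16)/qE E`), so the tail is at
most `2^(-j)` times the whole; `#P om 2^(-j) → 0`. -/
def StmtKQ : Prop := ∃ c : ℝ, 0 < c ∧ ∀ η : ℝ, 0 < η → ∃ E0 : ℕ, ∀ E z x y : ℕ, E0 ≤ E →
  Sr E z x y → ∀ b : ℕ, b < QQ x → ∀ P : Finset ℕ, P ⊆ Icc 1 y →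
  (P.card : ℝ) * om y z ≤ c * (E * Real.log E) →
  ∑ n ∈ NI (x / 32) x (QQ x) b, Wt E z y P n ^ 2 * ((P.filter (fun h => (n + h).Prime)).card : ℝ)
    ≤ η * (XI (x / 32) x (QQ x) * Dt E z y P)

/-- Two primes in the blocks: upper bound.
Proof.  `StmtTG` on `P ∪ {j, j'}`, `F = {j, j'}`, `T` the products of `TB` with labels in
`SS z (z^(E/32))` at `j, j'`; at primes `n + j`, `n + j'` the function is `Wt`.  The main term is
`XI ∑_{r ∈ TB} (..) gg (nz r + 2)/VM² ≤ XI om² Dt/VM²` (`gg (k+2) ≤ om² gg k`), `1 ≤ Dt`. -/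
def StmtPB : Prop := ∃ C : ℝ, 0 < C ∧ ∃ E0 : ℕ, ∀ E z x y : ℕ, E0 ≤ E → Sr E z x y →
  ∀ b : ℕ, b < QQ x → ∀ P : Finset ℕ, P ⊆ Icc 1 y → (P.card : ℝ) * om y z ≤ (E : ℝ) ^ 2 / 2 →
  ∀ j ∈ Icc 1 y, ∀ j' ∈ Icc 1 y, j ∉ P → j' ∉ P → j ≠ j' →
  ∑ n ∈ (NI (x / 32) x (QQ x) b).filter (fun n => (n + j).Prime ∧ (n + j').Prime),
      Wt E z y P n ^ 2
    ≤ C * (XI (x / 32) x (QQ x) * Dt E z y P) * (om y z / E) ^ 2

/-- Combinatorics.  Let `N = #P`, `μ = N om`, `t_k` the sum over the `k`-tuples of labels in `LA` of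
total cost `≤ E/16` of `∏ ab² φ`.  The right side is `∑_k C(#S, k) t_k`, the left side
`∑_k C(N, k) gg(k) t_k ≤ ∑_k μ^k/k! t_k`; only `k ≤ K₀ = (E/16)/mE E` occur.
If `μ ≤ √E`: `t_k ≤ t_1^k`, `t_1 ≤ 1/mE E ≤ E^(-3/4)` (`∑ 1/(φ ee) = VV`), so
`Dt ≤ exp(μ t_1) ≤ 1 + 2 E^(-1/4)`, and the right side is `≥ 1`.
If `μ > √E` and `#S ≥ μ (1 - η/(4(K₀+1)))`: `C(#S, k) ≥ (#S - k)^k/k! ≥ (1 - η/2) μ^k/k!`
because `K₀²/μ ≤ E^(1/3 - 1/2)` is small. -/
def StmtCM : Prop := ∀ η : ℝ, 0 < η → ∃ E0 : ℕ, ∀ E z y : ℕ, E0 ≤ E → 2 ≤ z → E ≤ y →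
  ∀ P S : Finset ℕ, S ⊆ P →
  ((P.card : ℝ) * om y z ≤ √E ∨
    (P.card : ℝ) * om y z * (1 - η / (4 * ((E / 16 / mE E : ℕ) + 1))) ≤ S.card) →
  (1 - η) * Dt E z y P ≤
    ∑ r ∈ TB (mE E) (qE E) (E / 16) z P, (if ∀ i, r i ≠ 0 → (i : ℕ) ∈ S then
      ∏ i : P, (if r i = 0 then 1 else ab (mE E) (qE E) z (r i) ^ 2 * (Nat.totient (r i) : ℝ))
      else 0)

/-- LOWER BOUND FOR THE PRIMES UNDER THE WEIGHT.
Proof.  `StmtWT` with `w n = pw x (n + j)`, `T = TB`, `G d = CN d`, `al` as in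
`Pool/Agent/Helper49/GM/TS.lean` (`StmtCB`), `K = 2 ((E/16)/mE E + 1)`, `D = z^(2(E/16))`, and
`StmtER`:
`∑ pw Wt² = ∑_{r ∈ TB} (∏ ab²φ) CN(sg r) ± exp(-cE) XI = ∑_n pw x (n+j) D(S(n)) ± ..`, where
`S(n)` is the set of the `h ∈ P` with `n + h` rough and `D(S)` the right side of `StmtCM`.  Let
`μ = #P om`.  If `μ ≤ √E` use `StmtCM`.  If `μ > √E`, the `n` with `n + j` prime and
`#S(n) < μ (1 - η/(8(K₀+1)))` are at most `C XI (om/E) (μ+1) (8(K₀+1)/(η μ))²` by `StmtCO`, and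
`(K₀+1)²/μ → 0`.  Finally `exp(-cE) ≤ η om/E` because `om ≥ c E/log x`, `log log x ≤ E^(1/3)`. -/
def StmtLB : Prop := ∀ η : ℝ, 0 < η → ∃ E0 : ℕ, ∀ E z x y : ℕ, E0 ≤ E → Sr E z x y →
  ∀ b : ℕ, b < QQ x → ∀ P : Finset ℕ, P ⊆ Icc 1 y → (P.card : ℝ) * om y z ≤ (E : ℝ) ^ 2 / 2 →
  ∀ j ∈ Icc 1 y, j ∉ P →
  Dt E z y P * ((1 - η) * (∑ n ∈ NI (x / 32) x (QQ x) b, pw x (n + j))
      - η * (XI (x / 32) x (QQ x) * (om y z / E)))
    ≤ ∑ n ∈ NI (x / 32) x (QQ x) b, pw x (n + j) * Wt E z y P n ^ 2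

/-! ## Part III: the choice of the class and the conclusion -/

/-- The total weight of the primes; Mathlib `Chebyshev.theta_ge'`, `Chebyshev.theta_le_log4_mul_x`:
`θ(x/2) - θ(x/8) ≥ c x` and `tw ≥ 1/2` there. -/
def StmtA1 : Prop := ∃ c : ℝ, 0 < c ∧ ∃ x0 : ℕ, ∀ x : ℕ, x0 ≤ x → ∀ j : ℕ,
  (j : ℝ) ≤ Real.log x ^ 2 → c * (x / Real.log x) ≤ ∑ n ∈ Ioc (x / 32) x, pw x (n + j)

/-- The second moment of the number of points of an interval which are prime to `Q`.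
Proof.  For `h ≠ h'`, `t = h' - h`: `#{b < Q : (b+h, Q) = (b+h', Q) = 1} =
Q ∏_{p | Q} (1 - ν_p/p) ≤ (φ(Q)²/Q) ∏_{p | t} (1 - 1/p)⁻¹`, and `∑_{t ≤ l} t/φ(t) ≤ C l`; the
diagonal is `l φ(Q) ≤ C Q (l φ(Q)/Q)²` for `l ≥ log log x`, by Mertens. -/
def StmtA3 : Prop := ∃ C : ℝ, 0 < C ∧ ∃ x0 : ℕ, ∀ x : ℕ, x0 ≤ x → ∀ t l : ℕ,
  Real.log (Real.log x) ≤ l →
  ∑ b ∈ range (QQ x), (((Ioc t (t + l)).filter (fun h => Nat.Coprime (b + h) (QQ x))).card : ℝ) ^ 2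
    ≤ C * QQ x * (l * ((Nat.totient (QQ x) : ℝ) / QQ x)) ^ 2

/-- Mertens: `om y z ≤ C log y/log z` (`Pool.Agent.Helper37.PP.mp`), `φ(Q)/Q ≤ C/log log x`. -/
def StmtA4 : Prop := ∃ C : ℝ, 0 < C ∧ ∃ E0 : ℕ, ∀ E z x y : ℕ, E0 ≤ E → Sr E z x y →
  om y z * ((Nat.totient (QQ x) : ℝ) / QQ x) ≤ C * (E / Real.log x)

/-- the `a`-th block -/
def blk (U l a : ℕ) : Finset ℕ := Ioc (a * (U + l)) (a * (U + l) + l)

/-- the number of primes in the `a`-th block -/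
noncomputable def nb (n U l a : ℕ) : ℕ := ((blk U l a).filter (fun j => (n + j).Prime)).card

/-- The window.
Proof.  Let `E` be about `√(3/4 log x)` and `z` about `x^(1/E)` (`Pool.Agent.Helper88.RR.scale`, see
`GM/KX.lean`), `K' = k + 2`, `l = ⌈δ log x⌉`, `M = ⌈R/δ⌉`, `U = ⌈c log x log log x/k²⌉`,
`y = M (U + l)`, `J` the union of the blocks, `P₀ = Icc 1 y \ J`,
`J_b`, `P_b` the points `h` with `(b + h, Q) = 1`, `X = XI (x/32) x Q`,
`ρ_b = ∑_{j ∈ J} ∑_{n ∈ NI} pw x (n+j)/X`, `T_b = ∑_a #(J_b ∩ blk a)²`, `o = om y z/E`.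
Averages over `b < Q`: `ρ_b`: at least `c₁ R` (`StmtA1`); `ρ_b ≤ C o #J_b` (`StmtBT`, only
`j ∈ J_b` contribute); `o² T_b`: at most `C₅ R δ` (`StmtA3`, `StmtA4`, `l ≤ 2 δ log x`), so
`o² #J_b² ≤ o² M T_b` at most `C₅ R²`; `#P_b`: `#P₀ φ(Q)/Q`.  Call `b` bad if
`#P_b > Λ #P₀ φ(Q)/Q`: at most `Q/Λ` of them, and by Cauchy-Schwarz the average of `ρ_b` over the
bad `b` (others counted 0) is at most `C √(C₅/Λ) R ≤ c₁ R/4` for a suitable absolute `Λ`.  For good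
`b`, `#P_b om ≤ Λ M U C₄ E/log x ≤ c E log E` (`StmtKQ`), if the constant in `U` is small, because
`M ≤ C k²`.  With `δ` about `c/k` and `R` about `C k` the average over the good `b` of
`(1-η) ρ_b - η o #J_b - K' C_P o² T_b/2 - K'(1+η) - M η` is positive; take such a `b`.  By `StmtLB`,
`StmtPB`, `GM.StmtS1` (mean square `≤ (1+η) X Dt`) and `StmtKQ`
`∑_{n ∈ NI} Wt² (#{j ∈ J : n+j prime} - K' #{pairs of primes in the same block} - K'
- M #{h ∈ P_b : n+h prime}) > 0`, so some `n` has a positive bracket; since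
`N - K' N(N-1)/2 ≤ 1` for every block, there is no prime in `n + P_b`, hence none in `n + P₀`
(`n + h > log x` is not prime if it is not prime to `Q`). -/
def StmtF1 : Prop := ∃ c : ℝ, 0 < c ∧ ∀ k : ℕ, 1 ≤ k → ∃ x0 : ℕ, ∀ x : ℕ, x0 ≤ x →
  ∃ n M U l : ℕ, c / k ^ 2 * (Real.log x * Real.log (Real.log x)) ≤ U ∧ 2 ≤ n ∧ n ≤ x ∧
    ((M * (U + l) : ℕ) : ℝ) ≤ Real.log x ^ 2 ∧
    (∀ h ∈ Icc 1 (M * (U + l)), (∀ a < M, h ∉ blk U l a) → ¬ (n + h).Prime) ∧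
    (k : ℝ) + 2 < ∑ a ∈ range M,
      ((nb n U l a : ℝ) - ((k : ℝ) + 2) * ((nb n U l a : ℝ) * ((nb n U l a : ℝ) - 1) / 2))

/-- From the window to consecutive primes.
Proof.  Blocks with exactly one prime: `s₁` of them, with at least two: `s₂`.  A block with `N ≥ 2`
contributes at most `2 - (k+2) = -k`, so `s₁ > k + 2 + k s₂ ≥ k (s₂ + 1)`, and
there are `k + 1` blocks with exactly one prime such that all blocks between them have no
prime (otherwise each of the at most `s₂ + 1` runs has at most `k` blocks).  Their primes are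
consecutive, and between two different blocks there are `U` killed integers. -/
def StmtF2 : Prop := ∀ k n M U l : ℕ, 1 ≤ k →
  (∀ h ∈ Icc 1 (M * (U + l)), (∀ a < M, h ∉ blk U l a) → ¬ (n + h).Prime) →
  (k : ℝ) + 2 < ∑ a ∈ range M,
      ((nb n U l a : ℝ) - ((k : ℝ) + 2) * ((nb n U l a : ℝ) * ((nb n U l a : ℝ) - 1) / 2)) →
  ∃ s : ℕ, Nat.nth Nat.Prime (s + k) ≤ n + M * (U + l) ∧
    ∀ i < k, Nat.nth Nat.Prime (s + i) + U < Nat.nth Nat.Prime (s + i + 1)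

/-- THE MAIN THEOREM: chains of large gaps between primes. -/
def StmtCG : Prop := ∃ c : ℝ, 0 < c ∧ ∀ k : ℕ, 1 ≤ k → ∃ X : ℝ, ∀ x : ℝ, X ≤ x → ∃ n : ℕ,
  (Nat.nth Nat.Prime (n + k) : ℝ) ≤ x ∧ ∀ i < k,
    c / k ^ 2 * (Real.log x * Real.log (Real.log x))
      ≤ (Nat.nth Nat.Prime (n + i + 1) : ℝ) - Nat.nth Nat.Prime (n + i) - 1

end Pool.Agent.Helper88.CG
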